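import Mathlib
import Pool.Agent.Work.MP_f1a024_nt.H84Ser
import Pool.Agent.Work.MP_f1a024_nt.Bd.B01

/-!
Zero estimate with explicit constants, for combinations supported on a divisor closed set.
-/

set_option autoImplicit false

namespace MPf1a024.SD

open Finset ArithmeticFunction
open MPf1a024.H84
open scoped ArithmeticFunction.Moebius

/-- `S` is a divisor closed set of integers in `[1, K]` not divisible by `q` -/
structure Adm (q K : ℕ) (S : Finset ℕ) : Prop where
  pos : ∀ k ∈ S, 0 < k
  dvd : ∀ k ∈ S, ∀ d, d ∣ k → d ∈ S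
  le : ∀ k ∈ S, k ≤ K
  cop : ∀ k ∈ S, ¬ q ∣ k

lemma Adm.zero_notMem {q K : ℕ} {S : Finset ℕ} (h : Adm q K S) : 0 ∉ S :=
  fun h0 => lt_irrefl _ (h.pos 0 h0)

lemma Adm.card_le {q K : ℕ} {S : Finset ℕ} (h : Adm q K S) : S.card ≤ K := by
  have : S ⊆ Finset.Icc 1 K := by
    intro k hk
    rw [Finset.mem_Icc]
    exact ⟨h.pos k hk, h.le k hk⟩
  simpa using Finset.card_le_card this

/-- the constants in the inductive solution of the system -/
noncomputable def kap (k : ℕ) : ℝ := ∏ i ∈ Finset.range (k + 1), ((i : ℝ) ^ 2 + 1)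

lemma one_le_kap (k : ℕ) : 1 ≤ kap k := by
  have : ∀ n : ℕ, (1 : ℝ) ≤ ∏ i ∈ Finset.range n, ((i : ℝ) ^ 2 + 1) := by
    intro n
    induction n with
    | zero => simp
    | succ n ih =>
      rw [Finset.prod_range_succ]
      have h2 : (0 : ℝ) ≤ (n : ℝ) ^ 2 := by positivity
      nlinarith
  exact this (k + 1)

lemma kap_succ (k : ℕ) : kap (k + 1) = kap k * (((k + 1 : ℕ) : ℝ) ^ 2 + 1) := by
  unfold kap
  rw [Finset.prod_range_succ]

lemma kap_mono : Monotone kap := by
  apply monotone_nat_of_le_succ
  intro k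
  rw [kap_succ]
  have := one_le_kap k
  have h2 : (0 : ℝ) ≤ ((k + 1 : ℕ) : ℝ) ^ 2 := by positivity
  nlinarith

lemma kap_le (k : ℕ) : kap k ≤ ((k : ℝ) ^ 2 + 1) ^ (k + 1) := by
  unfold kap
  calc ∏ i ∈ Finset.range (k + 1), ((i : ℝ) ^ 2 + 1)
      ≤ ∏ i ∈ Finset.range (k + 1), ((k : ℝ) ^ 2 + 1) := by
        apply Finset.prod_le_prod
        · intro i _; positivity
        · intro i hi
          have : (i : ℝ) ≤ k := by
            exact_mod_cast Nat.lt_succ_iff.mp (Finset.mem_range.mp hi)
          gcongr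
    _ = _ := by rw [Finset.prod_const, Finset.card_range]

/-- Injectivity of `(c, d) ↦ gco`, explicit. -/
theorem gco_inj' {q K : ℕ} (hq : q.Prime) {S : Finset ℕ} (hS : Adm q K S) (c d : ℕ → ℝ)
    {δ : ℝ} (hδ : 0 ≤ δ) (hg : ∀ n, 0 < n → n ≤ q * K → |gco S c d n| ≤ δ) :
    ∀ k ∈ S, |c k| ≤ kap (K + 1) * δ ∧ |d k| ≤ kap (K + 1) * δ := by
  have key : ∀ k, k ∈ S → |c k| ≤ kap k * δ := by
    intro k
    induction k using Nat.strong_induction_on with
    | _ k ih =>
      intro hk
      have hk0 : 0 < k := hS.pos k hk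
      have hqk : ¬ q ∣ k := hS.cop k hk
      have h1 := hg (k * q) (Nat.mul_pos hk0 hq.pos) (by
        rw [mul_comm]
        exact Nat.mul_le_mul_left _ (hS.le k hk))
      have hnot : k * q ∉ S := by
        intro h
        exact hS.cop _ h (dvd_mul_left q k)
      have hcfq : cf (-1) q = -2 := by
        have := cf_prime_pow (-1) hq 0
        simpa using this
      have h2 : gco S c d (k * q) = -2 * ∑ i ∈ k.divisors, c i * cf (-1) (k / i) := by
        unfold gco
        rw [if_neg hnot, add_zero, Finset.mul_sum]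
        have hsub : k.divisors ⊆ S := by
          intro i hi
          exact hS.dvd k hk i (Nat.dvd_of_mem_divisors hi)
        rw [← Finset.sum_subset hsub]
        · refine Finset.sum_congr rfl fun i hi => ?_
          have hik : i ∣ k := Nat.dvd_of_mem_divisors hi
          rw [if_pos (hik.mul_right q)]
          have hdiv : k * q / i = k / i * q := by
            rw [Nat.mul_comm, Nat.mul_div_assoc _ hik, Nat.mul_comm]
          have hcop : (k / i).Coprime q := by
            rw [Nat.coprime_comm, hq.coprime_iff_not_dvd]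
            intro h
            exact hqk (h.trans (Nat.div_dvd_of_dvd hik))
          rw [hdiv, cf_mul _ hcop, hcfq]
          ring
        · intro i hi hik
          have : ¬ i ∣ k * q := by
            intro h
            apply hik
            rw [Nat.mem_divisors]
            refine ⟨?_, hk0.ne'⟩
            have hcop : i.Coprime q := by
              rw [Nat.coprime_comm, hq.coprime_iff_not_dvd]
              intro h'
              exact hS.cop i hi h'
            exact hcop.dvd_of_dvd_mul_right h
          rw [if_neg this, mul_zero]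
      rw [h2, ← Nat.cons_self_properDivisors hk0.ne', Finset.sum_cons, Nat.div_self hk0,
        cf_one, mul_one] at h1
      have h3 : |∑ i ∈ k.properDivisors, c i * cf (-1) (k / i)| ≤
          (k : ℝ) ^ 2 * (kap (k - 1) * δ) := by
        calc |∑ i ∈ k.properDivisors, c i * cf (-1) (k / i)|
            ≤ ∑ i ∈ k.properDivisors, |c i * cf (-1) (k / i)| := Finset.abs_sum_le_sum_abs _ _
          _ ≤ ∑ i ∈ k.properDivisors, (kap (k - 1) * δ) * k := by
              apply Finset.sum_le_sum
              intro i hi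
              rw [Nat.mem_properDivisors] at hi
              rw [abs_mul]
              have h4 := ih i hi.2 (hS.dvd k hk i hi.1)
              have h5 : kap i ≤ kap (k - 1) := kap_mono (by omega)
              have h6 : |cf (-1) (k / i)| ≤ k := by
                refine (abs_cf_le (Or.inr rfl) _).trans ?_
                exact_mod_cast Nat.div_le_self k i
              apply mul_le_mul (h4.trans (by gcongr)) h6 (abs_nonneg _)
              have := one_le_kap (k - 1)
              positivity
          _ = k.properDivisors.card * ((kap (k - 1) * δ) * k) := by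
              rw [Finset.sum_const, nsmul_eq_mul]
          _ ≤ k * ((kap (k - 1) * δ) * k) := by
              have h7 : k.properDivisors.card ≤ k := by
                calc k.properDivisors.card ≤ k.divisors.card :=
                      Finset.card_le_card Nat.properDivisors_subset_divisors
                  _ ≤ k := Nat.card_divisors_le_self k
              have := one_le_kap (k - 1)
              have h8 : (k.properDivisors.card : ℝ) ≤ k := by exact_mod_cast h7
              apply mul_le_mul_of_nonneg_right h8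
              positivity
          _ = (k : ℝ) ^ 2 * (kap (k - 1) * δ) := by ring
      set S' := ∑ i ∈ k.properDivisors, c i * cf (-1) (k / i) with hS'
      have h4 : |c k + S'| ≤ δ := by
        rw [abs_mul] at h1
        have : |(-2 : ℝ)| = 2 := by norm_num
        rw [this] at h1
        have := abs_nonneg (c k + S')
        linarith
      have h5 : |c k| ≤ δ + (k : ℝ) ^ 2 * (kap (k - 1) * δ) := by
        calc |c k| = |(c k + S') - S'| := by ring_nf
          _ ≤ |c k + S'| + |S'| := abs_sub _ _
          _ ≤ _ := add_le_add h4 h3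
      refine h5.trans ?_
      have h6 : kap k = kap (k - 1) * ((k : ℝ) ^ 2 + 1) := by
        have := kap_succ (k - 1)
        rwa [Nat.sub_add_cancel hk0] at this
      rw [h6]
      have := one_le_kap (k - 1)
      nlinarith [mul_nonneg (sub_nonneg.mpr this) hδ]
  intro k hk
  have hk0 : 0 < k := hS.pos k hk
  have hkle : k ≤ K := hS.le k hk
  have hKle : K ≤ q * K := Nat.le_mul_of_pos_left K hq.pos
  refine ⟨(key k hk).trans ?_, ?_⟩
  · have : kap k ≤ kap (K + 1) := kap_mono (by omega)
    gcongr
  · have h1 := hg k hk0 (hkle.trans hKle)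
    unfold gco at h1
    rw [if_pos hk] at h1
    have h3 : |∑ i ∈ S, c i * (if i ∣ k then cf (-1) (k / i) else 0)| ≤
        (K : ℝ) ^ 2 * (kap K * δ) := by
      calc |∑ i ∈ S, c i * (if i ∣ k then cf (-1) (k / i) else 0)|
          ≤ ∑ i ∈ S, |c i * (if i ∣ k then cf (-1) (k / i) else 0)| :=
            Finset.abs_sum_le_sum_abs _ _
        _ ≤ ∑ i ∈ S, (kap K * δ) * K := by
            apply Finset.sum_le_sum
            intro i hi
            rw [abs_mul]
            have h5 : kap i ≤ kap K := kap_mono (hS.le i hi)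
            have h6 : |if i ∣ k then cf (-1) (k / i) else 0| ≤ K := by
              split_ifs
              · refine (abs_cf_le (Or.inr rfl) _).trans ?_
                exact_mod_cast (Nat.div_le_self k i).trans hkle
              · simp
            apply mul_le_mul ((key i hi).trans (by gcongr)) h6 (abs_nonneg _)
            have := one_le_kap K
            positivity
        _ = S.card * ((kap K * δ) * K) := by
            rw [Finset.sum_const, nsmul_eq_mul]
        _ ≤ K * ((kap K * δ) * K) := by
            have := one_le_kap K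
            have h8 : (S.card : ℝ) ≤ K := by exact_mod_cast hS.card_le
            apply mul_le_mul_of_nonneg_right h8
            positivity
        _ = (K : ℝ) ^ 2 * (kap K * δ) := by ring
    set S' := ∑ i ∈ S, c i * (if i ∣ k then cf (-1) (k / i) else 0) with hS'
    have h5 : |d k| ≤ δ + (K : ℝ) ^ 2 * (kap K * δ) := by
      calc |d k| = |(S' + d k) - S'| := by ring_nf
        _ ≤ |S' + d k| + |S'| := abs_sub _ _
        _ ≤ _ := add_le_add h1 h3
    refine h5.trans ?_
    rw [kap_succ K]
    have h7 := one_le_kap K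
    have h8 : (0 : ℝ) ≤ K := by positivity
    push_cast
    have h9 : 0 ≤ kap K * δ := by positivity
    nlinarith [mul_nonneg (sub_nonneg.mpr h7) hδ, mul_nonneg h9 h8]

/-- the constant from the head of the series -/
noncomputable def C2 (s J : ℕ) : ℝ := 1 + 2 * ((s : ℝ) + 1) * ((J + 1 : ℕ) : ℝ) ^ 3

/-- Zero estimate with explicit constants. -/
theorem zero_est' {q K J : ℕ} (hJ : J = q * K) (hq : q.Prime) {S : Finset ℕ} (hS : Adm q K S)
    (hK : 0 < K) {θ : ℝ} (hθ0 : 0 < θ) (hθ : θ ≤ 1 / ((J + 1 : ℕ) : ℝ)) {n h : ℕ} (hn3 : 3 ≤ n)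
    (hnum : 2 * (S.card : ℝ) * kap (K + 1) * (J.factorial : ℝ) * C2 S.card J *
      (J.factorial : ℝ) ^ h * (J : ℝ) ^ n / ((J + 1 : ℕ) : ℝ) ^ n < 1)
    (m : Fin J → ℕ) (hminj : Function.Injective m) (hm : ∀ i, n ≤ m i ∧ m i ≤ n + h)
    (y : Fin J → ℝ) (hy : ∀ i, |T (-1) (m i) - y i| ≤ θ ^ m i) (c d : ℕ → ℝ)
    (hzero : ∀ i, DP S c (m i) * y i + DP S d (m i) = 0) :
    ∀ k ∈ S, c k = 0 ∧ d k = 0 := by
  have hinj := fun {δ : ℝ} (hδ : 0 ≤ δ) (hg) => gco_inj' hq hS c d (δ := δ) hδ hg
  rw [← hJ] at hinj
  have hJ0 : 0 < J := by rw [hJ]; exact Nat.mul_pos hq.pos hK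
  have hJR : (0 : ℝ) < J := by exact_mod_cast hJ0
  have hK0 : 0 ∉ S := hS.zero_notMem
  set J1 : ℝ := ((J + 1 : ℕ) : ℝ) with hJ1
  have hJ1e : J1 = J + 1 := by rw [hJ1]; push_cast; ring
  have hJ1pos : 0 < J1 := by rw [hJ1e]; positivity
  set X : ℝ := ∑ k ∈ S, (|c k| + |d k|) with hX
  have hXnn : 0 ≤ X := Finset.sum_nonneg fun k _ => by positivity
  have hcX : ∀ k ∈ S, |c k| ≤ X := by
    intro k hk
    calc |c k| ≤ |c k| + |d k| := by linarith [abs_nonneg (d k)]
      _ ≤ X := Finset.single_le_sum (f := fun k => |c k| + |d k|)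
          (fun i _ => by positivity) hk
  have hdX : ∀ k ∈ S, |d k| ≤ X := by
    intro k hk
    calc |d k| ≤ |c k| + |d k| := by linarith [abs_nonneg (c k)]
      _ ≤ X := Finset.single_le_sum (f := fun k => |c k| + |d k|)
          (fun i _ => by positivity) hk
  have hhead : ∀ i, |∑ j : Fin J, gco S c d ((j : ℕ) + 1) * (1 / ((j : ℝ) + 1)) ^ m i| ≤
      C2 S.card J * X / J1 ^ n := by
    intro i
    have hmi3 : 3 ≤ m i := hn3.trans (hm i).1
    have h1 := head_bound hK0 c d hXnn hcX hdX J hmi3
    set S' := DP S c (m i) * T (-1) (m i) + DP S d (m i) with hS'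
    have hSval : S' = DP S c (m i) * (T (-1) (m i) - y i) := by
      have := hzero i
      rw [hS']
      linarith
    have hSle : |S'| ≤ X * (1 / J1 ^ n) := by
      rw [hSval, abs_mul]
      have h2 : |DP S c (m i)| ≤ X := by
        refine (abs_DP_le hK0 c _).trans ?_
        apply Finset.sum_le_sum
        intro k _
        linarith [abs_nonneg (d k)]
      have h3 : θ ^ m i ≤ 1 / J1 ^ n := by
        calc θ ^ m i ≤ (1 / J1) ^ m i := by gcongr
          _ ≤ (1 / J1) ^ n := by
              apply pow_le_pow_of_le_one (by positivity) _ (hm i).1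
              rw [div_le_one hJ1pos, hJ1e]
              linarith
          _ = 1 / J1 ^ n := by rw [div_pow, one_pow]
      exact mul_le_mul h2 ((hy i).trans h3) (abs_nonneg _) hXnn
    have hpow : 1 / J1 ^ (m i) ≤ 1 / J1 ^ n := by
      apply one_div_le_one_div_of_le (by positivity)
      apply pow_le_pow_right₀ _ (hm i).1
      rw [hJ1e]; linarith
    have h4 : 2 * (((S.card : ℝ) + 1) * X) * J1 ^ 3 / J1 ^ (m i) ≤
        2 * (((S.card : ℝ) + 1) * X) * J1 ^ 3 * (1 / J1 ^ n) := by
      rw [div_eq_mul_one_div]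
      gcongr
    set Hd := ∑ j : Fin J, gco S c d ((j : ℕ) + 1) * (1 / ((j : ℝ) + 1)) ^ m i with hHd
    calc |Hd| = |S' - (S' - Hd)| := by ring_nf
      _ ≤ |S'| + |S' - Hd| := abs_sub _ _
      _ ≤ X * (1 / J1 ^ n) + 2 * (((S.card : ℝ) + 1) * X) * J1 ^ 3 * (1 / J1 ^ n) :=
          add_le_add hSle (h1.trans h4)
      _ = C2 S.card J * X / J1 ^ n := by rw [C2]; ring
  have hC2 : 0 < C2 S.card J := by unfold C2; positivity
  set δ : ℝ := J.factorial * (C2 S.card J * X / J1 ^ n) * (J : ℝ) ^ n *
    (J.factorial : ℝ) ^ h with hδ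
  have hδ0 : 0 ≤ δ := by positivity
  have hg : ∀ k, 0 < k → k ≤ J → |gco S c d k| ≤ δ := by
    intro k hk0 hkJ
    have h1 := solve_bound (J := J) m hminj n (n + h) (fun i => (hm i).1)
      (fun i => (hm i).2) (Nat.le_add_right _ _) (fun j => gco S c d ((j : ℕ) + 1))
      (C2 S.card J * X / J1 ^ n) (by positivity) hhead ⟨k - 1, by omega⟩
    simp only at h1
    rw [Nat.sub_add_cancel hk0, Nat.add_sub_cancel_left] at h1
    refine h1.trans ?_
    have hk1 : (((k - 1 : ℕ) : ℝ) + 1) = k := by
      rw [Nat.cast_sub hk0]; push_cast; ring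
    rw [hk1, hδ]
    gcongr
  have hfin := hinj hδ0 hg
  have hXle : X ≤ (2 * (S.card : ℝ) * kap (K + 1) * (J.factorial : ℝ) * C2 S.card J *
      (J.factorial : ℝ) ^ h * (J : ℝ) ^ n / J1 ^ n) * X := by
    calc X ≤ ∑ k ∈ S, (kap (K + 1) * δ + kap (K + 1) * δ) := by
          apply Finset.sum_le_sum
          intro k hk
          exact add_le_add (hfin k hk).1 (hfin k hk).2
      _ = _ := by
          rw [Finset.sum_const, nsmul_eq_mul, hδ]; ring
  have hX0 : X = 0 := by
    by_contra hne
    have hpos : 0 < X := lt_of_le_of_ne hXnn (Ne.symm hne)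
    nlinarith
  intro k hk
  have h1 := hcX k hk
  have h2 := hdX k hk
  rw [hX0] at h1 h2
  exact ⟨abs_nonpos_iff.mp h1, abs_nonpos_iff.mp h2⟩

end MPf1a024.SD
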