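import Mathlib
import Pool.Agent.Work.MP_f1a024_nt.SD.Zero

/-!
Change of columns: for `k ∈ S`, `q k ≤ K`, the column `a / k^m` is replaced by
`k^(-m) (a D(m) - b N(m))`, `D`, `N` truncated at `q`.
-/

set_option autoImplicit false

namespace MPf1a024.SD

open Finset ArithmeticFunction Matrix
open MPf1a024.H84 (DP gco abs_DP_le abs_T_le abs_gco_le tail_le hasSum_gco gco_zero sq_mul_F
  F_cast F)
open scoped ArithmeticFunction.Moebius

/-- column indices -/
abbrev Ix (S : Finset ℕ) : Type := Bool × {k // k ∈ S}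

/-- the change of columns -/
def TT (q K : ℕ) (S : Finset ℕ) : Matrix (Ix S) (Ix S) ℤ := Matrix.of fun x y =>
  if y.1 = true ∧ q * (y.2 : ℕ) ≤ K then
    (if (y.2 : ℕ) ∣ (x.2 : ℕ) ∧ (x.2 : ℕ) / (y.2 : ℕ) < q then
        (if x.1 = true then μ ((x.2 : ℕ) / (y.2 : ℕ)) ^ 2 else -μ ((x.2 : ℕ) / (y.2 : ℕ))) else 0)
  else (if x = y then 1 else 0)

/-- the row attached to `m`, `a`, `b` -/
noncomputable def row (S : Finset ℕ) (m : ℕ) (a b : ℤ) (x : Ix S) : ℝ :=
  (if x.1 = true then (a : ℝ) else (b : ℝ)) / ((x.2 : ℕ) : ℝ) ^ m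

/-- the sets used: divisor closed, in `[1, K]`, closed under small multiples -/
structure Adm2 (q K : ℕ) (S : Finset ℕ) : Prop extends Adm q K S where
  mul : ∀ k ∈ S, q * k ≤ K → ∀ j, 0 < j → j < q → k * j ∈ S

theorem TT_det_ne {q K : ℕ} (hq : 1 < q) {S : Finset ℕ} (hS : Adm q K S) :
    (TT q K S).det ≠ 0 := by
  intro h0
  obtain ⟨v, hv, hTv⟩ := Matrix.exists_mulVec_eq_zero_iff.mpr h0
  apply hv
  -- the `true` part
  have htrue : ∀ n : ℕ, ∀ k : {k // k ∈ S}, (k : ℕ) = n → v (true, k) = 0 := by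
    intro n
    induction n using Nat.strong_induction_on with
    | _ n ih =>
      intro k hk
      have hkpos : 0 < (k : ℕ) := hS.pos _ k.2
      have h1 := congrFun hTv (true, k)
      simp only [Matrix.mulVec, dotProduct, Pi.zero_apply] at h1
      rw [Finset.sum_eq_single (true, k)] at h1
      · have hd : TT q K S (true, k) (true, k) = 1 := by
          simp only [TT, Matrix.of_apply, if_true, dvd_refl, true_and]
          rw [Nat.div_self hkpos]
          split_ifs <;> simp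
        rwa [hd, one_mul] at h1
      · rintro ⟨s, j⟩ - hne
        cases s with
        | false =>
          have : TT q K S (true, k) (false, j) = 0 := by
            simp [TT]
          rw [this, zero_mul]
        | true =>
          by_cases hdvd : (j : ℕ) ∣ (k : ℕ)
          · have hjk : (j : ℕ) ≠ (k : ℕ) := by
              intro h
              apply hne
              rw [Subtype.ext h]
            have hlt : (j : ℕ) < n := by
              rw [← hk]
              exact lt_of_le_of_ne (Nat.le_of_dvd hkpos hdvd) hjk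
            rw [ih _ hlt j rfl, mul_zero]
          · have hkj : (k : ℕ) ≠ (j : ℕ) := fun h => hdvd (h ▸ dvd_rfl)
            have : TT q K S (true, k) (true, j) = 0 := by
              simp only [TT, Matrix.of_apply, hdvd, false_and, if_false]
              have : ¬ ((true, k) : Ix S) = (true, j) := by
                intro h
                exact hkj (congrArg (fun x : Ix S => (x.2 : ℕ)) h)
              rw [if_neg this]
              simp
            rw [this, zero_mul]
      · intro h; exact absurd (Finset.mem_univ _) h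
  funext x
  obtain ⟨s, k⟩ := x
  cases s with
  | true => exact htrue _ k rfl
  | false =>
    have h1 := congrFun hTv (false, k)
    simp only [Matrix.mulVec, dotProduct, Pi.zero_apply] at h1
    rw [Finset.sum_eq_single (false, k)] at h1
    · have hd : TT q K S (false, k) (false, k) = 1 := by
        simp [TT]
      rwa [hd, one_mul] at h1
    · rintro ⟨s, j⟩ - hne
      cases s with
      | true => rw [htrue _ j rfl, mul_zero]
      | false =>
        have : TT q K S (false, k) (false, j) = 0 := by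
          have : ¬ ((false, k) : Ix S) = (false, j) := fun h => hne h.symm
          simp only [TT, Matrix.of_apply]
          rw [if_neg this]
          simp
        rw [this, zero_mul]
    · intro h; exact absurd (Finset.mem_univ _) h

/-- coefficients of `D` -/
noncomputable def cD (j : ℕ) : ℝ := (μ j : ℝ) ^ 2

/-- coefficients of `-N` -/
noncomputable def cN (j : ℕ) : ℝ := -(μ j : ℝ)

/-- a sum over the multiples of `k` in `S` -/
lemma sum_mult {q K : ℕ} {S : Finset ℕ} (hS : Adm2 q K S) {k : ℕ} (hk : k ∈ S)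
    (hkK : q * k ≤ K) (f : ℕ → ℝ) (A : ℝ) (m : ℕ) :
    ∑ y ∈ S, (if k ∣ y ∧ y / k < q then A * f (y / k) / (y : ℝ) ^ m else 0) =
      A * DP (Finset.Icc 1 (q - 1)) f m / (k : ℝ) ^ m := by
  have hk0 : 0 < k := hS.pos _ hk
  rw [← Finset.sum_filter, DP, Finset.mul_sum, Finset.sum_div]
  symm
  refine Finset.sum_nbij' (fun d => k * d) (fun y => y / k) ?_ ?_ ?_ ?_ ?_
  · intro d hd
    rw [Finset.mem_Icc] at hd
    simp only [Finset.mem_filter]
    refine ⟨hS.mul k hk hkK d (by omega) (by omega), dvd_mul_right _ _, ?_⟩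
    rw [Nat.mul_div_cancel_left _ hk0]
    omega
  · intro y hy
    simp only [Finset.mem_filter] at hy
    rw [Finset.mem_Icc]
    have h1 : 0 < y / k := Nat.div_pos (Nat.le_of_dvd (hS.pos _ hy.1) hy.2.1) hk0
    omega
  · intro d _
    exact Nat.mul_div_cancel_left _ hk0
  · intro y hy
    simp only [Finset.mem_filter] at hy
    exact Nat.mul_div_cancel' hy.2.1
  · intro d hd
    simp only [Nat.mul_div_cancel_left _ hk0]
    push_cast
    rw [mul_pow, mul_div_assoc', div_div, mul_comm ((d : ℝ) ^ m)]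

/-- a `true` column that is changed -/
theorem row_TT_true {q K : ℕ} {S : Finset ℕ} (hS : Adm2 q K S) (m : ℕ) (a b : ℤ)
    (k : {k // k ∈ S}) (hk : q * (k : ℕ) ≤ K) :
    ∑ x, row S m a b x * ((TT q K S x (true, k) : ℤ) : ℝ) =
      (a * DP (Finset.Icc 1 (q - 1)) cD m + b * DP (Finset.Icc 1 (q - 1)) cN m) /
        ((k : ℕ) : ℝ) ^ m := by
  rw [Fintype.sum_prod_type, Fintype.sum_bool]
  have e1 : ∑ y : {k // k ∈ S},
      row S m a b (true, y) * ((TT q K S (true, y) (true, k) : ℤ) : ℝ) =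
      a * DP (Finset.Icc 1 (q - 1)) cD m / ((k : ℕ) : ℝ) ^ m := by
    rw [← sum_mult hS k.2 hk, ← Finset.sum_coe_sort S]
    refine Finset.sum_congr rfl fun y _ => ?_
    simp only [TT, row, Matrix.of_apply, if_true, hk, true_and, cD]
    split_ifs
    · push_cast; ring
    · simp
  have e3 : ∑ y : {k // k ∈ S},
      row S m a b (false, y) * ((TT q K S (false, y) (true, k) : ℤ) : ℝ) =
      b * DP (Finset.Icc 1 (q - 1)) cN m / ((k : ℕ) : ℝ) ^ m := by
    rw [← sum_mult hS k.2 hk, ← Finset.sum_coe_sort S]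
    refine Finset.sum_congr rfl fun y _ => ?_
    simp only [TT, row, Matrix.of_apply, if_true, hk, true_and, cN, Bool.false_eq_true, if_false]
    split_ifs
    · push_cast; ring
    · simp
  rw [e1, e3]
  ring

/-- the other columns -/
theorem row_TT_other {q K : ℕ} {S : Finset ℕ} (m : ℕ) (a b : ℤ)
    (y : Ix S) (hy : ¬ (y.1 = true ∧ q * (y.2 : ℕ) ≤ K)) :
    ∑ x, row S m a b x * ((TT q K S x y : ℤ) : ℝ) = row S m a b y := by
  rw [Finset.sum_eq_single y]
  · simp [TT, hy]
  · intro x _ hxy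
    have : TT q K S x y = 0 := by
      simp only [TT, Matrix.of_apply]
      rw [if_neg hy, if_neg hxy]
    rw [this]
    simp
  · intro h; exact absurd (Finset.mem_univ _) h

/-- the convolution identity in the form we need -/
lemma gco_small {q n : ℕ} (hn0 : 0 < n) (hnq : n < q) :
    gco (Finset.Icc 1 (q - 1)) cD cN n = 0 := by
  have hconv := congrArg (fun f : ArithmeticFunction ℤ => ((f n : ℤ) : ℝ)) sq_mul_F
  simp only [ArithmeticFunction.mul_apply] at hconv
  rw [Nat.sum_divisorsAntidiagonal (fun a b => (ArithmeticFunction.pmul μ μ) a * F b)] at hconv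
  unfold gco
  have h1 : ∑ k ∈ Finset.Icc 1 (q - 1), cD k * (if k ∣ n then cf (-1) (n / k) else 0)
      = (μ n : ℝ) := by
    rw [← hconv]
    push_cast
    have hsub : n.divisors ⊆ Finset.Icc 1 (q - 1) := by
      intro k hk
      rw [Finset.mem_Icc]
      have h2 := Nat.pos_of_mem_divisors hk
      have h3 := Nat.divisor_le hk
      omega
    rw [← Finset.sum_subset hsub]
    · refine Finset.sum_congr rfl fun k hk => ?_
      rw [if_pos (Nat.dvd_of_mem_divisors hk), ArithmeticFunction.pmul_apply, F_cast, cD]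
      push_cast
      ring
    · intro k _ hk
      have : ¬ k ∣ n := fun h => hk (Nat.mem_divisors.mpr ⟨h, hn0.ne'⟩)
      rw [if_neg this, mul_zero]
  rw [h1, if_pos (by rw [Finset.mem_Icc]; omega), cN]
  ring

lemma abs_cD_le (j : ℕ) : |cD j| ≤ 1 := by
  have h := ArithmeticFunction.abs_moebius_le_one (n := j)
  have h2 : |(μ j : ℝ)| ≤ 1 := by exact_mod_cast h
  rw [cD, abs_pow]
  exact pow_le_one₀ (abs_nonneg _) h2

lemma abs_cN_le (j : ℕ) : |cN j| ≤ 1 := by
  have h := ArithmeticFunction.abs_moebius_le_one (n := j)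
  have h2 : |(μ j : ℝ)| ≤ 1 := by exact_mod_cast h
  rw [cN, abs_neg]
  exact h2

lemma DTN_small {q : ℕ} (hq : 1 ≤ q) {m : ℕ} (hm : 3 ≤ m) :
    |DP (Finset.Icc 1 (q - 1)) cD m * T (-1) m + DP (Finset.Icc 1 (q - 1)) cN m| ≤
      2 * (q : ℝ) * (q : ℝ) ^ 3 / (q : ℝ) ^ m := by
  have h0 : 0 ∉ Finset.Icc 1 (q - 1) := by simp
  refine tail_le (C := (q : ℝ)) (by positivity) ?_ hq ?_ hm (hasSum_gco h0 cD cN hm)
  · intro n
    have h1 := abs_gco_le h0 cD cN zero_le_one (fun k _ => abs_cD_le k)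
      (fun k _ => abs_cN_le k) n
    have h2 : ((Finset.Icc 1 (q - 1)).card : ℝ) + 1 = q := by
      rw [Nat.card_Icc]
      have : q - 1 + 1 - 1 = q - 1 := by omega
      rw [this, Nat.cast_sub hq]
      push_cast
      ring
    rwa [h2, mul_one] at h1
  · intro n hn
    rcases Nat.eq_zero_or_pos n with h | h
    · rw [h]; exact gco_zero h0 _ _
    · exact gco_small h hn

/-- size of the changed columns -/
noncomputable def C4 (q : ℕ) : ℝ := 3 + (q : ℝ) + 2 * (q : ℝ) ^ 4

lemma C4_pos (q : ℕ) : 0 < C4 q := by unfold C4; positivity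

/-- bounds for the columns -/
noncomputable def colb (q K : ℕ) (S : Finset ℕ) (B : ℝ) (n H : ℕ) (x : Ix S) : ℝ :=
  C4 q * B ^ H / ((x.2 : ℕ) : ℝ) ^ n *
    (if x.1 = true ∧ q * (x.2 : ℕ) ≤ K then 1 / (q : ℝ) ^ n else 1)

theorem col_le {q K : ℕ} (hq : 1 ≤ q) {S : Finset ℕ} (hS : Adm2 q K S) {B θ : ℝ}
    (hB : 1 ≤ B) (hθ0 : 0 < θ) (hθ : θ ≤ 1 / q) {n H m : ℕ} (hn3 : 3 ≤ n) (hnm : n ≤ m)
    (hmH : m ≤ H) {a b : ℤ} (hb : 0 < b) (hbB : (b : ℝ) ≤ B ^ m)
    (hab : |T (-1) m - a / b| ≤ θ ^ m) (y : Ix S) :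
    |∑ x, row S m a b x * ((TT q K S x y : ℤ) : ℝ)| ≤ colb q K S B n H y := by
  have hbR : (0 : ℝ) < b := by exact_mod_cast hb
  have hq0 : (0 : ℝ) < q := by exact_mod_cast hq
  have hk0 : 0 < ((y.2 : ℕ)) := hS.pos _ y.2.2
  have hk1 : (1 : ℝ) ≤ ((y.2 : ℕ) : ℝ) := by exact_mod_cast hk0
  have hm3 : 3 ≤ m := hn3.trans hnm
  have hbH : (b : ℝ) ≤ B ^ H := hbB.trans (pow_le_pow_right₀ hB hmH)
  have hT := abs_T_le hm3
  have hq1 : (1 : ℝ) ≤ q := by exact_mod_cast hq
  have hθ1 : θ ≤ 1 := hθ.trans (by rw [div_le_one hq0]; exact hq1)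
  have hθm : θ ^ m ≤ 1 / (q : ℝ) ^ m := by
    calc θ ^ m ≤ (1 / (q : ℝ)) ^ m := by gcongr
      _ = 1 / (q : ℝ) ^ m := by rw [div_pow, one_pow]
  have hqmn : 1 / (q : ℝ) ^ m ≤ 1 / (q : ℝ) ^ n :=
    one_div_le_one_div_of_le (by positivity) (pow_le_pow_right₀ hq1 hnm)
  have hkmn : 1 / ((y.2 : ℕ) : ℝ) ^ m ≤ 1 / ((y.2 : ℕ) : ℝ) ^ n :=
    one_div_le_one_div_of_le (by positivity) (pow_le_pow_right₀ hk1 hnm)
  have haB : |(a : ℝ)| ≤ 3 * B ^ H := by
    have h1 : |(a : ℝ) / b| ≤ 3 := by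
      calc |(a : ℝ) / b| = |T (-1) m - (T (-1) m - a / b)| := by ring_nf
        _ ≤ |T (-1) m| + |T (-1) m - a / b| := abs_sub _ _
        _ ≤ 2 + 1 := add_le_add hT (hab.trans (pow_le_one₀ hθ0.le hθ1))
        _ = 3 := by norm_num
    rw [abs_div, abs_of_pos hbR, div_le_iff₀ hbR] at h1
    exact h1.trans (by gcongr)
  by_cases hy : y.1 = true ∧ q * (y.2 : ℕ) ≤ K
  · obtain ⟨s, k⟩ := y
    simp only at hy hk0 hk1 hkmn
    obtain ⟨rfl, hkR'⟩ := hy
    rw [row_TT_true hS m a b k hkR']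
    set D := DP (Finset.Icc 1 (q - 1)) cD m with hD
    set N' := DP (Finset.Icc 1 (q - 1)) cN m with hN'
    have hDle : |D| ≤ q := by
      refine (abs_DP_le (by simp) _ _).trans ?_
      calc ∑ k ∈ Finset.Icc 1 (q - 1), |cD k| ≤ ∑ k ∈ Finset.Icc 1 (q - 1), (1 : ℝ) :=
            Finset.sum_le_sum fun k _ => abs_cD_le k
        _ = ((q - 1 : ℕ) : ℝ) := by simp
        _ ≤ q := by exact_mod_cast Nat.sub_le q 1
    have h1 : (a : ℝ) * D + b * N' = b * ((D * T (-1) m + N') - D * (T (-1) m - a / b)) := by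
      field_simp
      ring
    have h2 : |(a : ℝ) * D + b * N'| ≤ B ^ H * ((C4 q) * (1 / (q : ℝ) ^ n)) := by
      rw [h1, abs_mul, abs_of_pos hbR]
      apply mul_le_mul hbH _ (abs_nonneg _) (by positivity)
      calc |(D * T (-1) m + N') - D * (T (-1) m - a / b)|
          ≤ |D * T (-1) m + N'| + |D * (T (-1) m - a / b)| := abs_sub _ _
        _ ≤ 2 * (q : ℝ) * (q : ℝ) ^ 3 * (1 / (q : ℝ) ^ m) +
            q * (1 / (q : ℝ) ^ m) := by
            apply add_le_add
            · rw [mul_one_div]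
              exact DTN_small hq hm3
            · rw [abs_mul]
              exact mul_le_mul hDle (hab.trans hθm) (abs_nonneg _) (by positivity)
        _ = (2 * (q : ℝ) ^ 4 + q) * (1 / (q : ℝ) ^ m) := by ring
        _ ≤ C4 q * (1 / (q : ℝ) ^ n) := by
            apply mul_le_mul _ hqmn (by positivity) (C4_pos q).le
            unfold C4
            linarith
    unfold colb
    rw [if_pos ⟨rfl, hkR'⟩, abs_div, abs_of_pos (by positivity : (0 : ℝ) < ((k : ℕ) : ℝ) ^ m),
      div_eq_mul_one_div]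
    calc |(a : ℝ) * D + b * N'| * (1 / ((k : ℕ) : ℝ) ^ m)
        ≤ (B ^ H * ((C4 q) * (1 / (q : ℝ) ^ n))) * (1 / ((k : ℕ) : ℝ) ^ n) :=
          mul_le_mul h2 hkmn (by positivity) (by have := C4_pos q; positivity)
      _ = _ := by ring
  · rw [row_TT_other m a b y hy]
    unfold colb
    rw [if_neg hy, mul_one]
    unfold row
    rw [abs_div, abs_of_pos (by positivity : (0 : ℝ) < ((y.2 : ℕ) : ℝ) ^ m),
      div_eq_mul_one_div, div_eq_mul_one_div (C4 q * B ^ H)]
    have hC4 : 3 ≤ C4 q := by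
      unfold C4
      have : (0 : ℝ) ≤ (q : ℝ) + 2 * (q : ℝ) ^ 4 := by positivity
      linarith
    have hBH : (0 : ℝ) < B ^ H := by positivity
    apply mul_le_mul _ hkmn (by positivity) (by positivity)
    split_ifs
    · exact haB.trans (by gcongr)
    · rw [abs_of_pos hbR]
      calc (b : ℝ) ≤ 1 * B ^ H := by rw [one_mul]; exact hbH
        _ ≤ C4 q * B ^ H := by gcongr; linarith

end MPf1a024.SD
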