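import Mathlib
import Pool.Agent.Work.MP_f1a024_nt.SD.Col
import Pool.Agent.Work.MP_f1a024_nt.H84Main

/-!
The determinant inequality, explicit.
-/

set_option autoImplicit false

namespace MPf1a024.SD

open Finset ArithmeticFunction Matrix
open MPf1a024.H84 (DP det_bound exists_rows final_id)

lemma card_Ix (S : Finset ℕ) : Fintype.card (Ix S) = 2 * S.card := by
  rw [Fintype.card_prod, Fintype.card_bool, Fintype.card_coe]

/-- the elements whose column is changed -/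
def low (q K : ℕ) (S : Finset ℕ) : Finset ℕ := S.filter (fun k => q * k ≤ K)

lemma prod_colb (q K : ℕ) (S : Finset ℕ) (B : ℝ) (n H : ℕ) :
    ∏ x : Ix S, colb q K S B n H x =
      (C4 q * B ^ H) ^ (2 * S.card) / (∏ x : Ix S, ((x.2 : ℕ) : ℝ)) ^ n *
        (1 / (q : ℝ) ^ n) ^ (low q K S).card := by
  unfold colb
  rw [Finset.prod_mul_distrib, Finset.prod_div_distrib, Finset.prod_const, Finset.prod_pow,
    Finset.card_univ, card_Ix]
  congr 1
  rw [Fintype.prod_prod_type, Fintype.prod_bool]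
  simp only [true_and, Bool.false_eq_true, false_and, if_false, Finset.prod_const_one, mul_one]
  rw [Finset.prod_coe_sort S (fun k => if q * k ≤ K then 1 / (q : ℝ) ^ n else 1),
    ← Finset.prod_filter, Finset.prod_const, low]

lemma rank_cond {κ : Type*} (S : Finset ℕ) (m : κ → ℕ) (a b : κ → ℤ) (hb : ∀ i, 0 < b i)
    (hcd : ∀ c d : ℕ → ℝ, (∀ i, DP S c (m i) * ((a i : ℝ) / b i) +
      DP S d (m i) = 0) → ∀ k ∈ S, c k = 0 ∧ d k = 0)
    (v : Ix S → ℝ) (hv : ∀ i, ∑ x, row S (m i) (a i) (b i) x * v x = 0) : v = 0 := by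
  classical
  have hc : ∀ k (h : k ∈ S),
      (if h : k ∈ S then v (true, ⟨k, h⟩) else 0) = v (true, ⟨k, h⟩) :=
    fun k h => dif_pos h
  have hd : ∀ k (h : k ∈ S),
      (if h : k ∈ S then v (false, ⟨k, h⟩) else 0) = v (false, ⟨k, h⟩) :=
    fun k h => dif_pos h
  have key := hcd (fun k => if h : k ∈ S then v (true, ⟨k, h⟩) else 0)
    (fun k => if h : k ∈ S then v (false, ⟨k, h⟩) else 0) (by
      intro i
      have h1 := hv i
      rw [Fintype.sum_prod_type, Fintype.sum_bool] at h1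
      have hbR : (b i : ℝ) ≠ 0 := by exact_mod_cast (hb i).ne'
      have h2 : ∑ y : {k // k ∈ S}, row S (m i) (a i) (b i) (true, y) * v (true, y) =
          DP S (fun k => if h : k ∈ S then v (true, ⟨k, h⟩) else 0) (m i)
            * a i := by
        rw [DP, ← Finset.sum_coe_sort S, Finset.sum_mul]
        refine Finset.sum_congr rfl fun y _ => ?_
        rw [hc y y.2]
        simp only [row, if_true]
        ring
      have h3 : ∑ y : {k // k ∈ S}, row S (m i) (a i) (b i) (false, y) * v (false, y) =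
          DP S (fun k => if h : k ∈ S then v (false, ⟨k, h⟩) else 0) (m i)
            * b i := by
        rw [DP, ← Finset.sum_coe_sort S, Finset.sum_mul]
        refine Finset.sum_congr rfl fun y _ => ?_
        rw [hd y y.2]
        simp only [row, Bool.false_eq_true, if_false]
        ring
      rw [h2, h3] at h1
      have h4 : ∀ x y A C : ℝ, C ≠ 0 → x * A + y * C = 0 → x * (A / C) + y = 0 := by
        intro x y A C hC h
        field_simp
        linarith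
      exact h4 _ _ _ _ hbR h1)
  funext x
  obtain ⟨s, k⟩ := x
  obtain ⟨h1, h2⟩ := key k k.2
  cases s with
  | true => exact (hc k k.2).symm.trans h1
  | false => exact (hd k k.2).symm.trans h2

/-- The determinant inequality -/
theorem det_ineq {q K : ℕ} (hq1 : 1 < q) {S : Finset ℕ} (hS : Adm2 q K S)
    {B θ : ℝ} (hB : 1 ≤ B) (hθ0 : 0 < θ) (hθq : θ ≤ 1 / q) {n h : ℕ} (hn3 : 3 ≤ n)
    {κ : Type*} (m : κ → ℕ) (hm : ∀ i, n ≤ m i ∧ m i ≤ n + h)
    (a b : κ → ℤ) (hb : ∀ i, 0 < b i)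
    (hbB : ∀ i, (b i : ℝ) ≤ B ^ (m i)) (hab : ∀ i, |T (-1) (m i) - a i / b i| ≤ θ ^ (m i))
    (hcd : ∀ c d : ℕ → ℝ, (∀ i, DP S c (m i) * ((a i : ℝ) / b i) +
      DP S d (m i) = 0) → ∀ k ∈ S, c k = 0 ∧ d k = 0) :
    1 ≤ (((2 * S.card).factorial : ℝ) * C4 q ^ (2 * S.card)) *
      (((∏ x : Ix S, ((x.2 : ℕ) : ℝ)) * B ^ (2 * S.card)) ^ h *
        (B ^ (2 * S.card) / (q : ℝ) ^ (low q K S).card) ^ n) := by
  obtain ⟨f, hf⟩ := exists_rows (fun (i : κ) (x : Ix S) => row S (m i) (a i) (b i) x)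
    (rank_cond S m a b hb hcd)
  have hkey := det_bound (Matrix.of fun i j => row S (m (f i)) (a (f i)) (b (f i)) j)
    (fun x => (x.2 : ℕ)) (fun i => m (f i)) (n + h)
    (fun i => (hm (f i)).2) (fun x => hS.pos _ x.2.2)
    (fun i x => if x.1 = true then a (f i) else b (f i))
    (fun i x => by
      rw [Matrix.of_apply, row]
      split_ifs <;> rfl) hf (TT q K S) (TT_det_ne hq1 hS.toAdm)
    (colb q K S B n (n + h))
    (fun x => by
      unfold colb
      have h1 := C4_pos q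
      have h2 : (0 : ℝ) < ((x.2 : ℕ) : ℝ) := by exact_mod_cast hS.pos _ x.2.2
      split_ifs <;> positivity)
    (fun i y => by
      have := col_le hq1.le hS hB hθ0 hθq hn3 (hm (f i)).1 (hm (f i)).2
        (hb (f i)) (hbB (f i)) (hab (f i)) y
      simpa [Matrix.mul_apply] using this)
  rw [prod_colb q K S, card_Ix] at hkey
  have hW0 : 0 < ∏ x : Ix S, ((x.2 : ℕ) : ℝ) :=
    Finset.prod_pos fun x _ => by exact_mod_cast hS.pos _ x.2.2
  rw [final_id hW0] at hkey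
  exact hkey

lemma prod_Ix_le {q K : ℕ} {S : Finset ℕ} (hS : Adm q K S) :
    ∏ x : Ix S, ((x.2 : ℕ) : ℝ) ≤ (K : ℝ) ^ (2 * S.card) := by
  calc ∏ x : Ix S, ((x.2 : ℕ) : ℝ) ≤ ∏ x : Ix S, (K : ℝ) := by
        apply Finset.prod_le_prod
        · intro x _; positivity
        · intro x _
          exact_mod_cast hS.le _ x.2.2
    _ = _ := by rw [Finset.prod_const, Finset.card_univ, card_Ix]

/-- cleaner form: `M`-th root -/
theorem det_ineq' {q K : ℕ} (hq1 : 1 < q) {S : Finset ℕ} (hS : Adm2 q K S) (hne : S.Nonempty)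
    {B θ : ℝ} (hB : 1 ≤ B) (hθ0 : 0 < θ) (hθq : θ ≤ 1 / q) {n h : ℕ} (hn3 : 3 ≤ n)
    {κ : Type*} (m : κ → ℕ) (hm : ∀ i, n ≤ m i ∧ m i ≤ n + h)
    (a b : κ → ℤ) (hb : ∀ i, 0 < b i)
    (hbB : ∀ i, (b i : ℝ) ≤ B ^ (m i)) (hab : ∀ i, |T (-1) (m i) - a i / b i| ≤ θ ^ (m i))
    (hcd : ∀ c d : ℕ → ℝ, (∀ i, DP S c (m i) * ((a i : ℝ) / b i) +
      DP S d (m i) = 0) → ∀ k ∈ S, c k = 0 ∧ d k = 0) {η : ℝ}
    (hlow : (1 - η) * (S.card : ℝ) ≤ (low q K S).card) :
    (q : ℝ) ^ ((1 - η) / 2 * (n : ℝ)) ≤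
      (2 * (S.card : ℝ)) * C4 q * ((K : ℝ) * B) ^ h * B ^ n := by
  have h1 := det_ineq hq1 hS hB hθ0 hθq hn3 m hm a b hb hbB hab hcd
  have hc0 : 0 < S.card := hne.card_pos
  have hK0 : 0 < K := by
    obtain ⟨k, hk⟩ := hne
    exact lt_of_lt_of_le (hS.pos k hk) (hS.le k hk)
  obtain ⟨M, hM⟩ : ∃ M, M = 2 * S.card := ⟨_, rfl⟩
  rw [← hM] at h1
  have hM0 : M ≠ 0 := by omega
  have hq0 : (0 : ℝ) < q := by positivity
  have hqone : (1 : ℝ) ≤ q := by exact_mod_cast hq1.le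
  have hB0 : 0 < B := by linarith
  have hC4 := C4_pos q
  have hW0 : 0 < ∏ x : Ix S, ((x.2 : ℕ) : ℝ) :=
    Finset.prod_pos fun x _ => by exact_mod_cast hS.pos _ x.2.2
  have hWle : ∏ x : Ix S, ((x.2 : ℕ) : ℝ) ≤ (K : ℝ) ^ M := by
    rw [hM]; exact prod_Ix_le hS.toAdm
  have hfac : ((M.factorial : ℕ) : ℝ) ≤ (M : ℝ) ^ M := by exact_mod_cast Nat.factorial_le_pow M
  have hqlow : 0 < (q : ℝ) ^ (low q K S).card := by positivity
  have h2 : (1 : ℝ) ≤ ((M : ℝ) * C4 q * ((K : ℝ) * B) ^ h * B ^ n) ^ M /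
      ((q : ℝ) ^ (low q K S).card) ^ n := by
    refine h1.trans ?_
    calc (M.factorial : ℝ) * C4 q ^ M * (((∏ x : Ix S, ((x.2 : ℕ) : ℝ)) * B ^ M) ^ h *
        (B ^ M / (q : ℝ) ^ (low q K S).card) ^ n)
        ≤ (M : ℝ) ^ M * C4 q ^ M * (((K : ℝ) ^ M * B ^ M) ^ h *
        (B ^ M / (q : ℝ) ^ (low q K S).card) ^ n) := by gcongr
      _ = _ := by
        have e1 : ((K : ℝ) ^ M * B ^ M) ^ h = (((K : ℝ) * B) ^ h) ^ M := by
          rw [← mul_pow, ← pow_mul, ← pow_mul, mul_comm M h]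
        have e2 : (B ^ M) ^ n = (B ^ n) ^ M := by
          rw [← pow_mul, ← pow_mul, mul_comm M n]
        rw [div_pow, e1, e2, mul_pow, mul_pow, mul_pow]
        ring
  rw [le_div_iff₀ (by positivity), one_mul] at h2
  have h3 : (q : ℝ) ^ ((1 - η) / 2 * (n : ℝ) * (M : ℝ)) ≤ ((q : ℝ) ^ (low q K S).card) ^ n := by
    rw [← pow_mul, ← Real.rpow_natCast]
    apply Real.rpow_le_rpow_of_exponent_le hqone
    rw [hM]
    push_cast
    have hn0 : (0 : ℝ) ≤ n := by positivity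
    nlinarith [mul_le_mul_of_nonneg_right hlow hn0]
  have h4 := h3.trans h2
  rw [Real.rpow_mul hq0.le, Real.rpow_natCast] at h4
  have h5 := (pow_le_pow_iff_left₀ (by positivity) (by positivity) hM0).mp h4
  rw [hM] at h5
  push_cast at h5
  exact h5

end MPf1a024.SD
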