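import Mathlib
import Pool.Agent.Work.MP_f1a024_nt.SD.Det

/-!
Smooth numbers: choice of the set of columns.
-/

set_option autoImplicit false

namespace MPf1a024.SD

open Finset

/-- `q`-smooth numbers up to `N` -/
def SS (q N : ℕ) : Finset ℕ := Nat.smoothNumbersUpTo N q

lemma mem_SS {q N n : ℕ} : n ∈ SS q N ↔ n ≤ N ∧ n ∈ Nat.smoothNumbers q :=
  Nat.mem_smoothNumbersUpTo

lemma adm_SS {q : ℕ} (hq : q.Prime) (N : ℕ) : Adm2 q N (SS q N) := by
  refine ⟨⟨?_, ?_, ?_, ?_⟩, ?_⟩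
  · intro k hk
    exact Nat.pos_of_ne_zero (Nat.ne_zero_of_mem_smoothNumbers (mem_SS.mp hk).2)
  · intro k hk d hd
    rw [mem_SS] at hk ⊢
    have hk0 := Nat.pos_of_ne_zero (Nat.ne_zero_of_mem_smoothNumbers hk.2)
    exact ⟨(Nat.le_of_dvd hk0 hd).trans hk.1, Nat.mem_smoothNumbers_of_dvd hk.2 hd⟩
  · intro k hk
    exact (mem_SS.mp hk).1
  · intro k hk hqk
    have h := (mem_SS.mp hk).2
    rw [Nat.mem_smoothNumbers'] at h
    exact lt_irrefl _ (h q hq hqk)
  · intro k hk hqk j hj0 hjq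
    rw [mem_SS] at hk ⊢
    refine ⟨?_, Nat.mul_mem_smoothNumbers hk.2 (Nat.mem_smoothNumbers_of_lt hj0 hjq)⟩
    calc k * j ≤ k * q := Nat.mul_le_mul_left _ hjq.le
      _ = q * k := mul_comm _ _
      _ ≤ N := hqk

lemma low_SS {q : ℕ} (hq : 0 < q) (N : ℕ) : low q (q * N) (SS q (q * N)) = SS q N := by
  ext k
  rw [low, Finset.mem_filter, mem_SS, mem_SS]
  constructor
  · rintro ⟨⟨_, h2⟩, h3⟩
    exact ⟨Nat.le_of_mul_le_mul_left h3 hq, h2⟩
  · rintro ⟨h1, h2⟩
    exact ⟨⟨h1.trans (Nat.le_mul_of_pos_left N hq), h2⟩, Nat.mul_le_mul_left q h1⟩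

lemma one_mem_SS {q N : ℕ} (hN : 1 ≤ N) : 1 ∈ SS q N := by
  rw [mem_SS]
  refine ⟨hN, ?_⟩
  rw [Nat.mem_smoothNumbers]
  simp

lemma card_SS_le (q I : ℕ) : (SS q (q ^ I)).card ≤ (q * I + 1) ^ q := by
  have hcard : (Fintype.piFinset (fun _ : Fin q => Finset.range (q * I + 1))).card =
      (q * I + 1) ^ q := by
    rw [Fintype.card_piFinset]
    simp
  rw [← hcard]
  apply Finset.card_le_card_of_injOn (fun n => fun p : Fin q => n.factorization p)
  · intro n hn
    have hn' : n ∈ SS q (q ^ I) := by simpa using hn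
    rw [mem_SS] at hn'
    have : (fun p : Fin q => n.factorization p) ∈
        Fintype.piFinset (fun _ : Fin q => Finset.range (q * I + 1)) := by
      rw [Fintype.mem_piFinset]
      intro p
      rw [Finset.mem_range, Nat.lt_succ_iff]
      by_cases hp : (p : ℕ).Prime
      · apply Nat.factorization_le_of_le_pow
        calc n ≤ q ^ I := hn'.1
          _ ≤ (2 ^ q) ^ I := Nat.pow_le_pow_left Nat.lt_two_pow_self.le I
          _ = 2 ^ (q * I) := by rw [← pow_mul]
          _ ≤ (p : ℕ) ^ (q * I) := Nat.pow_le_pow_left hp.two_le _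
      · rw [Nat.factorization_eq_zero_of_not_prime _ hp]
        exact Nat.zero_le _
    simpa using this
  · intro n hn n' hn' h
    have h1 : n ∈ SS q (q ^ I) := by simpa using hn
    have h2 : n' ∈ SS q (q ^ I) := by simpa using hn'
    rw [mem_SS] at h1 h2
    apply Nat.eq_of_factorization_eq (Nat.ne_zero_of_mem_smoothNumbers h1.2)
      (Nat.ne_zero_of_mem_smoothNumbers h2.2)
    intro p
    by_cases hpq : p < q
    · exact congrFun h ⟨p, hpq⟩
    · have h3 : ∀ a : ℕ, a ∈ Nat.smoothNumbers q → a.factorization p = 0 := by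
        intro a ha
        by_cases hp : p.Prime
        · apply Nat.factorization_eq_zero_of_not_dvd
          intro hd
          rw [Nat.mem_smoothNumbers'] at ha
          exact hpq (ha p hp hd)
        · exact Nat.factorization_eq_zero_of_not_prime _ hp
      rw [h3 n h1.2, h3 n' h2.2]

/-- number of candidate scales -/
noncomputable def II (η : ℝ) (q : ℕ) : ℕ := ⌈(q : ℝ) ^ (1 + η)⌉₊

theorem exists_scale {η : ℝ} (hη0 : 0 < η) (hη1 : η < 1) {q : ℕ} (hq : 4 ≤ q)
    (hlog : 4 * Real.log q < η * (q : ℝ) ^ η) :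
    ∃ i, i < II η q ∧
      (1 - η) * ((SS q (q ^ (i + 1))).card : ℝ) ≤ ((SS q (q ^ i)).card : ℝ) := by
  by_contra hcon
  push Not at hcon
  have hq4 : (4 : ℝ) ≤ q := by exact_mod_cast hq
  have hq0 : (0 : ℝ) < q := by linarith
  have hind : ∀ i, i ≤ II η q → 1 ≤ (1 - η) ^ i * ((SS q (q ^ i)).card : ℝ) := by
    intro i
    induction i with
    | zero =>
      intro _
      have : 0 < (SS q (q ^ 0)).card := Finset.card_pos.mpr ⟨1, one_mem_SS (by simp)⟩
      rw [pow_zero, one_mul]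
      exact_mod_cast this
    | succ i ih =>
      intro hi
      have h1 := ih (by omega)
      have h2 := hcon i (by omega)
      have h3 : 0 < (1 - η) ^ i := pow_pos (by linarith) _
      calc (1 : ℝ) ≤ (1 - η) ^ i * ((SS q (q ^ i)).card : ℝ) := h1
        _ ≤ (1 - η) ^ i * ((1 - η) * ((SS q (q ^ (i + 1))).card : ℝ)) := by gcongr
        _ = _ := by rw [pow_succ]; ring
  have h1 := hind (II η q) le_rfl
  obtain ⟨I, hI⟩ : ∃ I, I = II η q := ⟨_, rfl⟩
  rw [← hI] at h1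
  have hIge : (q : ℝ) ^ (1 + η) ≤ I := by rw [hI]; exact Nat.le_ceil _
  have hIlt : (I : ℝ) < (q : ℝ) ^ (1 + η) + 1 := by
    rw [hI]; exact Nat.ceil_lt_add_one (by positivity)
  have hq1 : (1 : ℝ) ≤ q := by linarith
  have hpow2 : (q : ℝ) ^ (1 + η) ≤ (q : ℝ) ^ (2 : ℝ) :=
    Real.rpow_le_rpow_of_exponent_le hq1 (by linarith)
  rw [Real.rpow_two] at hpow2
  have hI0 : (0 : ℝ) < I := lt_of_lt_of_le (by positivity) hIge
  -- upper bound
  have h2 : ((SS q (q ^ I)).card : ℝ) ≤ ((q : ℝ) * I + 1) ^ q := by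
    exact_mod_cast card_SS_le q I
  have h3 : (q : ℝ) * I + 1 ≤ (q : ℝ) ^ 4 := by
    have : (q : ℝ) * I ≤ q * ((q : ℝ) ^ 2 + 1) := by gcongr; linarith
    nlinarith [mul_pos hq0 hq0, pow_pos hq0 3]
  have h4 : (1 - η) ^ I ≤ Real.exp (-(η * I)) := by
    calc (1 - η) ^ I ≤ (Real.exp (-η)) ^ I := by
          apply pow_le_pow_left₀ (by linarith)
          have := Real.add_one_le_exp (-η)
          linarith
      _ = Real.exp (-(η * I)) := by
          rw [← Real.exp_nat_mul]; ring_nf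
  have h5 : (1 : ℝ) ≤ Real.exp (-(η * I)) * ((q : ℝ) ^ 4) ^ q := by
    refine h1.trans ?_
    have h6 : (0 : ℝ) ≤ (q : ℝ) * I + 1 := by positivity
    have h7 : ((SS q (q ^ I)).card : ℝ) ≤ ((q : ℝ) ^ 4) ^ q :=
      h2.trans (pow_le_pow_left₀ h6 h3 q)
    exact mul_le_mul h4 h7 (by positivity) (Real.exp_pos _).le
  have h6 : ((q : ℝ) ^ 4) ^ q = Real.exp (4 * q * Real.log q) := by
    rw [← pow_mul, ← Real.rpow_natCast, Real.rpow_def_of_pos hq0]
    congr 1
    push_cast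
    ring
  rw [h6, ← Real.exp_add] at h5
  have h7 : 0 ≤ -(η * I) + 4 * q * Real.log q := by
    by_contra hneg
    push Not at hneg
    have := Real.exp_lt_exp.mpr hneg
    rw [Real.exp_zero] at this
    linarith
  have h8 : η * (q : ℝ) ^ (1 + η) ≤ η * I := by gcongr
  have h9 : (q : ℝ) ^ (1 + η) = q * (q : ℝ) ^ η := by
    rw [Real.rpow_add hq0, Real.rpow_one]
  rw [h9] at h8
  have h10 : (q : ℝ) * (4 * Real.log q) < q * (η * (q : ℝ) ^ η) := by gcongr
  nlinarith

end MPf1a024.SD
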