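import Mathlib
import Pool.Agent.Work.MP_f1a024_nt.SD.Cnt

/-!
The window theorem with explicit parameters.
-/

set_option autoImplicit false

namespace MPf1a024.SD

open Finset

/-- `m` is such that `T(m)` is very close to a rational number with a small denominator -/
def Near (B θ : ℝ) (m : ℕ) : Prop :=
  ∃ a b : ℤ, 0 < b ∧ (b : ℝ) ≤ B ^ m ∧ |T (-1) m - a / b| ≤ θ ^ m

lemma num1 {J K s h n : ℕ} (hJ : 16 ≤ J) (hK : 4 * K ≤ J) (hs : s ≤ K) (hn : J ^ 10 ≤ n)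
    (hh : h = n / J ^ 5) :
    2 * (s : ℝ) * kap (K + 1) * (J.factorial : ℝ) * C2 s J *
      (J.factorial : ℝ) ^ h * (J : ℝ) ^ n / ((J + 1 : ℕ) : ℝ) ^ n < 1 := by
  have hJR : (16 : ℝ) ≤ J := by exact_mod_cast hJ
  have hJ0 : (0 : ℝ) < J := by linarith
  have hJ1 : (1 : ℝ) ≤ J := by linarith
  have hKR : 4 * (K : ℝ) ≤ J := by exact_mod_cast hK
  have hsR : (s : ℝ) ≤ K := by exact_mod_cast hs
  have hs0 : (0 : ℝ) ≤ s := by positivity
  have hK0 : (0 : ℝ) ≤ K := by positivity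
  -- factors
  have f1 : 2 * (s : ℝ) ≤ (J : ℝ) ^ 1 := by rw [pow_one]; linarith
  have f2 : kap (K + 1) ≤ (J : ℝ) ^ (2 * J) := by
    refine (kap_le (K + 1)).trans ?_
    have h1 : (((K + 1 : ℕ) : ℝ) ^ 2 + 1) ≤ (J : ℝ) ^ 2 := by
      push_cast
      nlinarith
    calc (((K + 1 : ℕ) : ℝ) ^ 2 + 1) ^ (K + 1 + 1) ≤ ((J : ℝ) ^ 2) ^ (K + 1 + 1) := by gcongr
      _ ≤ ((J : ℝ) ^ 2) ^ J := by
          apply pow_le_pow_right₀
          · exact one_le_pow₀ hJ1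
          · omega
      _ = (J : ℝ) ^ (2 * J) := by rw [← pow_mul]
  have f3 : (J.factorial : ℝ) ≤ (J : ℝ) ^ J := by exact_mod_cast Nat.factorial_le_pow J
  have f4 : C2 s J ≤ (J : ℝ) ^ 6 := by
    unfold C2
    push_cast
    have h1 : (s : ℝ) + 1 ≤ J := by linarith
    have h2 : ((J : ℝ) + 1) ^ 3 ≤ (2 * (J : ℝ)) ^ 3 := by
      apply pow_le_pow_left₀ (by positivity)
      linarith
    calc 1 + 2 * ((s : ℝ) + 1) * ((J : ℝ) + 1) ^ 3 ≤ 1 + 2 * (J : ℝ) * (2 * (J : ℝ)) ^ 3 := by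
          gcongr
      _ = 1 + 16 * (J : ℝ) ^ 4 := by ring
      _ ≤ (J : ℝ) ^ 6 := by
          have h3 : (256 : ℝ) ≤ (J : ℝ) ^ 2 := by nlinarith
          have h4 : (1 : ℝ) ≤ (J : ℝ) ^ 4 := one_le_pow₀ hJ1
          have h5 : (J : ℝ) ^ 6 = (J : ℝ) ^ 2 * (J : ℝ) ^ 4 := by ring
          rw [h5]
          nlinarith
  have f5 : (J.factorial : ℝ) ^ h ≤ (J : ℝ) ^ (J * h) := by
    rw [pow_mul]; gcongr
  have hk1 := one_le_kap (K + 1)
  have hC2 : 0 < C2 s J := by unfold C2; positivity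
  have hprod : 2 * (s : ℝ) * kap (K + 1) * (J.factorial : ℝ) * C2 s J *
      (J.factorial : ℝ) ^ h ≤ (2 : ℝ) ^ (J ^ 2 * (h + 4)) := by
    calc 2 * (s : ℝ) * kap (K + 1) * (J.factorial : ℝ) * C2 s J * (J.factorial : ℝ) ^ h
        ≤ (J : ℝ) ^ 1 * (J : ℝ) ^ (2 * J) * (J : ℝ) ^ J * (J : ℝ) ^ 6 * (J : ℝ) ^ (J * h) := by
          gcongr
      _ = (J : ℝ) ^ (1 + 2 * J + J + 6 + J * h) := by
          rw [← pow_add, ← pow_add, ← pow_add, ← pow_add]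
      _ ≤ (J : ℝ) ^ (J * (h + 4)) := by
          apply pow_le_pow_right₀ hJ1
          nlinarith
      _ ≤ ((2 : ℝ) ^ J) ^ (J * (h + 4)) := by
          apply pow_le_pow_left₀ hJ0.le
          exact_mod_cast Nat.lt_two_pow_self.le
      _ = (2 : ℝ) ^ (J ^ 2 * (h + 4)) := by rw [← pow_mul]; ring_nf
  -- exponent
  have hexp : J ^ 2 * (h + 4) + 1 ≤ n / J := by
    rw [Nat.le_div_iff_mul_le (by omega)]
    have h1 : h * J ^ 5 ≤ n := by rw [hh]; exact Nat.div_mul_le_self n (J ^ 5)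
    have h2 : 256 * (h * J ^ 3) ≤ n := by
      calc 256 * (h * J ^ 3) ≤ J ^ 2 * (h * J ^ 3) := by
            apply Nat.mul_le_mul_right
            nlinarith
        _ = h * J ^ 5 := by ring
        _ ≤ n := h1
    have h3 : 10 * J ^ 3 ≤ n := by
      calc 10 * J ^ 3 ≤ J ^ 7 * J ^ 3 := by
            apply Nat.mul_le_mul_right
            calc 10 ≤ 16 ^ 7 := by norm_num
              _ ≤ J ^ 7 := Nat.pow_le_pow_left hJ 7
        _ = J ^ 10 := by ring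
        _ ≤ n := hn
    have h4 : J ≤ J ^ 3 := by
      calc J = J ^ 1 := (pow_one J).symm
        _ ≤ J ^ 3 := Nat.pow_le_pow_right (by omega) (by omega)
    calc (J ^ 2 * (h + 4) + 1) * J = h * J ^ 3 + 4 * J ^ 3 + J := by ring
      _ ≤ n := by omega
  have hlow : (2 : ℝ) ^ (n / J) ≤ ((J + 1 : ℕ) : ℝ) ^ n / (J : ℝ) ^ n := by
    rw [← div_pow]
    have h1 : (2 : ℝ) ≤ (((J + 1 : ℕ) : ℝ) / J) ^ J := by
      have h2 := one_add_mul_le_pow (a := 1 / (J : ℝ)) (by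
        have : 0 ≤ 1 / (J : ℝ) := by positivity
        linarith) J
      have h3 : 1 + (J : ℝ) * (1 / J) = 2 := by field_simp; norm_num
      have h4 : 1 + 1 / (J : ℝ) = ((J + 1 : ℕ) : ℝ) / J := by
        push_cast; field_simp
      rw [h3, h4] at h2
      exact h2
    have h5 : (1 : ℝ) ≤ ((J + 1 : ℕ) : ℝ) / J := by
      rw [le_div_iff₀ hJ0]; push_cast; linarith
    calc (2 : ℝ) ^ (n / J) ≤ ((((J + 1 : ℕ) : ℝ) / J) ^ J) ^ (n / J) := by gcongr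
      _ = (((J + 1 : ℕ) : ℝ) / J) ^ (J * (n / J)) := by rw [pow_mul]
      _ ≤ (((J + 1 : ℕ) : ℝ) / J) ^ n := pow_le_pow_right₀ h5 (Nat.mul_div_le n J)
  have hfin : 2 * (s : ℝ) * kap (K + 1) * (J.factorial : ℝ) * C2 s J *
      (J.factorial : ℝ) ^ h < ((J + 1 : ℕ) : ℝ) ^ n / (J : ℝ) ^ n := by
    calc 2 * (s : ℝ) * kap (K + 1) * (J.factorial : ℝ) * C2 s J *
        (J.factorial : ℝ) ^ h ≤ (2 : ℝ) ^ (J ^ 2 * (h + 4)) := hprod
      _ < (2 : ℝ) ^ (n / J) := pow_lt_pow_right₀ (by norm_num) (by omega)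
      _ ≤ _ := hlow
  have hJn : (0 : ℝ) < (J : ℝ) ^ n := by positivity
  have hJ1n : (0 : ℝ) < ((J + 1 : ℕ) : ℝ) ^ n := by positivity
  rw [lt_div_iff₀ hJn] at hfin
  rw [div_lt_one hJ1n]
  exact hfin

lemma num2 {J K s h n q : ℕ} {B η : ℝ} (hJ : 16 ≤ J) (hη0 : 0 < η) (hη : 8 ≤ η * J)
    (hK : 4 * K ≤ J) (hs : s ≤ K) (hq2 : 2 ≤ q) (hqJ : q ≤ J) (hJq : J = q * K) (hn : J ^ 10 ≤ n)
    (hh : h = n / J ^ 5) (hB1 : 1 ≤ B) (hBq : B ≤ (q : ℝ) ^ (1 / 2 - η)) :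
    (2 * (s : ℝ)) * C4 q * ((K : ℝ) * B) ^ h * B ^ n < (q : ℝ) ^ ((1 - η) / 2 * (n : ℝ)) := by
  have hJR : (16 : ℝ) ≤ J := by exact_mod_cast hJ
  have hJ0 : (0 : ℝ) < J := by linarith
  have hJ1 : (1 : ℝ) ≤ J := by linarith
  have hKR : 4 * (K : ℝ) ≤ J := by exact_mod_cast hK
  have hsR : (s : ℝ) ≤ K := by exact_mod_cast hs
  have hs0 : (0 : ℝ) ≤ s := by positivity
  have hK0 : (0 : ℝ) ≤ K := by positivity
  have hq2R : (2 : ℝ) ≤ q := by exact_mod_cast hq2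
  have hq0 : (0 : ℝ) < q := by linarith
  have hqJR : (q : ℝ) ≤ J := by exact_mod_cast hqJ
  have hB0 : 0 < B := by linarith
  have hBq' : B ≤ q := by
    refine hBq.trans ?_
    calc (q : ℝ) ^ (1 / 2 - η) ≤ (q : ℝ) ^ (1 : ℝ) :=
          Real.rpow_le_rpow_of_exponent_le (by linarith) (by linarith)
      _ = q := Real.rpow_one _
  have f1 : 2 * (s : ℝ) ≤ (J : ℝ) ^ 1 := by rw [pow_one]; linarith
  have f2 : C4 q ≤ (J : ℝ) ^ 5 := by
    unfold C4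
    have h1 : (q : ℝ) ^ 4 ≤ (J : ℝ) ^ 4 := by gcongr
    have h2 : (J : ℝ) ≤ (J : ℝ) ^ 4 := by
      calc (J : ℝ) = (J : ℝ) ^ 1 := (pow_one _).symm
        _ ≤ (J : ℝ) ^ 4 := pow_le_pow_right₀ hJ1 (by norm_num)
    have h3 : (J : ℝ) ^ 5 = J * (J : ℝ) ^ 4 := by ring
    rw [h3]
    nlinarith
  have f3 : ((K : ℝ) * B) ^ h ≤ (J : ℝ) ^ h := by
    apply pow_le_pow_left₀ (by positivity)
    calc (K : ℝ) * B ≤ K * q := by gcongr
      _ = J := by rw [hJq]; push_cast; ring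
  have f4 : B ^ n ≤ (q : ℝ) ^ ((1 / 2 - η) * (n : ℝ)) := by
    rw [Real.rpow_mul hq0.le, Real.rpow_natCast]
    gcongr
  have hC4 := C4_pos q
  have h1 : (2 * (s : ℝ)) * C4 q * ((K : ℝ) * B) ^ h ≤ (2 : ℝ) ^ (J * (h + 6)) := by
    calc (2 * (s : ℝ)) * C4 q * ((K : ℝ) * B) ^ h
        ≤ (J : ℝ) ^ 1 * (J : ℝ) ^ 5 * (J : ℝ) ^ h := by gcongr
      _ = (J : ℝ) ^ (h + 6) := by rw [← pow_add, ← pow_add]; ring_nf
      _ ≤ ((2 : ℝ) ^ J) ^ (h + 6) := by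
          apply pow_le_pow_left₀ hJ0.le
          exact_mod_cast Nat.lt_two_pow_self.le
      _ = (2 : ℝ) ^ (J * (h + 6)) := by rw [← pow_mul]
  have hn0 : (0 : ℝ) < n := by
    have h2 : 0 < J ^ 10 := by positivity
    exact_mod_cast lt_of_lt_of_le h2 hn
  have hnR : (J : ℝ) ^ 10 ≤ n := by exact_mod_cast hn
  have h2 : ((J * (h + 6) : ℕ) : ℝ) < η / 2 * n := by
    push_cast
    have h3 : (h : ℝ) * (J : ℝ) ^ 5 ≤ n := by
      have : h * J ^ 5 ≤ n := by rw [hh]; exact Nat.div_mul_le_self n (J ^ 5)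
      exact_mod_cast this
    have hh0 : (0 : ℝ) ≤ h := by positivity
    have hJ4 : (16 : ℝ) ≤ (J : ℝ) ^ 3 := by
      calc (16 : ℝ) ≤ J := hJR
        _ = (J : ℝ) ^ 1 := (pow_one _).symm
        _ ≤ (J : ℝ) ^ 3 := pow_le_pow_right₀ hJ1 (by norm_num)
    -- `J * h * (16 * 8) ≤ η * n * J / J`
    have h4 : (J : ℝ) * h * 128 ≤ η * n := by
      have h5 : (J : ℝ) * h * (8 * 16) ≤ J * h * ((η * J) * (J : ℝ) ^ 3) := by
        gcongr
      calc (J : ℝ) * h * 128 = J * h * (8 * 16) := by ring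
        _ ≤ J * h * ((η * J) * (J : ℝ) ^ 3) := h5
        _ = η * (h * (J : ℝ) ^ 5) := by ring
        _ ≤ η * n := by gcongr
    have h6 : (J : ℝ) * 128 ≤ η * n := by
      have hJ8 : (16 : ℝ) ≤ (J : ℝ) ^ 8 := by
        calc (16 : ℝ) ≤ J := hJR
          _ = (J : ℝ) ^ 1 := (pow_one _).symm
          _ ≤ (J : ℝ) ^ 8 := pow_le_pow_right₀ hJ1 (by norm_num)
      calc (J : ℝ) * 128 = 8 * 16 * J := by ring
        _ ≤ (η * J) * (J : ℝ) ^ 8 * J := by gcongr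
        _ = η * (J : ℝ) ^ 10 := by ring
        _ ≤ η * n := by gcongr
    have h7 : 0 < η * n := by positivity
    linarith
  have h3 : (2 : ℝ) ^ (J * (h + 6)) < (q : ℝ) ^ (η / 2 * (n : ℝ)) := by
    calc (2 : ℝ) ^ (J * (h + 6)) = (2 : ℝ) ^ (((J * (h + 6) : ℕ) : ℝ)) := by
          rw [Real.rpow_natCast]
      _ < (2 : ℝ) ^ (η / 2 * (n : ℝ)) := Real.rpow_lt_rpow_of_exponent_lt (by norm_num) h2
      _ ≤ (q : ℝ) ^ (η / 2 * (n : ℝ)) := by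
          apply Real.rpow_le_rpow (by norm_num) hq2R
          positivity
  have h4 : (q : ℝ) ^ ((1 - η) / 2 * (n : ℝ)) =
      (q : ℝ) ^ (η / 2 * (n : ℝ)) * (q : ℝ) ^ ((1 / 2 - η) * (n : ℝ)) := by
    rw [← Real.rpow_add hq0]
    congr 1
    ring
  rw [h4]
  have h5 : (0 : ℝ) < B ^ n := by positivity
  calc (2 * (s : ℝ)) * C4 q * ((K : ℝ) * B) ^ h * B ^ n
      ≤ (2 : ℝ) ^ (J * (h + 6)) * B ^ n := by gcongr
    _ < (q : ℝ) ^ (η / 2 * (n : ℝ)) * B ^ n := by gcongr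
    _ ≤ _ := by gcongr

/-- The window theorem with explicit parameters. -/
theorem window {η : ℝ} (hη0 : 0 < η) {q : ℕ} (hq : q.Prime) (hq4 : 4 ≤ q)
    (hηq : 8 ≤ η * q) {i : ℕ}
    (hi : (1 - η) * ((SS q (q ^ (i + 1))).card : ℝ) ≤ ((SS q (q ^ i)).card : ℝ))
    {B : ℝ} (hB1 : 1 ≤ B) (hBq : B ≤ (q : ℝ) ^ (1 / 2 - η)) {J : ℕ} (hJ : J = q ^ (i + 2))
    {θ : ℝ} (hθ0 : 0 < θ) (hθ : θ ≤ 1 / ((J + 1 : ℕ) : ℝ)) {n : ℕ} (hn : J ^ 10 ≤ n)
    (S : Finset ℕ) (hS : ∀ m ∈ S, n ≤ m ∧ m ≤ n + n / J ^ 5 ∧ Near B θ m) : S.card < J := by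
  obtain ⟨K, hK⟩ : ∃ K, K = q ^ (i + 1) := ⟨_, rfl⟩
  have hJK : J = q * K := by rw [hJ, hK]; ring
  have hK0 : 0 < K := by rw [hK]; positivity
  have h4K : 4 * K ≤ J := by rw [hJK]; exact Nat.mul_le_mul_right K hq4
  have hqK : q ≤ K := by
    rw [hK]
    calc q = q ^ 1 := (pow_one q).symm
      _ ≤ q ^ (i + 1) := Nat.pow_le_pow_right (by omega) (by omega)
  have hJ16 : 16 ≤ J := by
    calc 16 = 4 * 4 := by norm_num
      _ ≤ q * K := Nat.mul_le_mul hq4 (hq4.trans hqK)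
      _ = J := hJK.symm
  have hqJ : q ≤ J := by omega
  have hηJ : 8 ≤ η * J := by
    refine hηq.trans ?_
    have : (q : ℝ) ≤ J := by exact_mod_cast hqJ
    gcongr
  rw [← hK] at hi
  have hadm := adm_SS hq K
  have hlow : low q K (SS q K) = SS q (q ^ i) := by
    have h1 : K = q * q ^ i := by rw [hK]; ring
    rw [h1]
    exact low_SS hq.pos _
  have hs : (SS q K).card ≤ K := hadm.toAdm.card_le
  by_contra hcard
  push Not at hcard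
  have hn3 : 3 ≤ n := by
    have h1 : 16 ≤ J ^ 10 := by
      calc 16 ≤ J := hJ16
        _ = J ^ 1 := (pow_one J).symm
        _ ≤ J ^ 10 := Nat.pow_le_pow_right (by omega) (by omega)
    omega
  have hdata : ∀ m : {m // m ∈ S}, ∃ a b : ℤ, 0 < b ∧ (b : ℝ) ≤ B ^ (m : ℕ) ∧
      |T (-1) m - a / b| ≤ θ ^ (m : ℕ) := fun m => (hS m m.2).2.2
  choose a b hb hbB hab using hdata
  obtain ⟨e⟩ : Nonempty (Fin J ↪ {m // m ∈ S}) := by
    rw [Function.Embedding.nonempty_iff_card_le, Fintype.card_fin, Fintype.card_coe]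
    exact hcard
  have hq0 : (0 : ℝ) < q := by exact_mod_cast hq.pos
  have hθq : θ ≤ 1 / q := by
    refine hθ.trans ?_
    apply one_div_le_one_div_of_le hq0
    exact_mod_cast (by omega : q ≤ J + 1)
  have hkey := det_ineq' hq.one_lt hadm ⟨1, one_mem_SS hK0⟩ hB1 hθ0 hθq (n := n)
    (h := n / J ^ 5) hn3
    (fun i : {m // m ∈ S} => (i : ℕ)) (fun i => ⟨(hS i i.2).1, (hS i i.2).2.1⟩) a b hb hbB hab
    (fun c d hz => zero_est' hJK hq hadm.toAdm hK0 hθ0 hθ hn3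
        (num1 hJ16 h4K hs hn rfl) (fun i => (e i : ℕ))
        (fun i j hij => e.injective (Subtype.ext hij))
        (fun i => ⟨(hS _ (e i).2).1, (hS _ (e i).2).2.1⟩)
        (fun i => (a (e i) : ℝ) / b (e i)) (fun i => hab (e i)) c d (fun i => hz (e i)))
    (η := η) (by rw [hlow]; exact hi)
  have h2 := num2 (B := B) hJ16 hη0 hηJ h4K hs (by omega) hqJ hJK hn rfl hB1 hBq
  linarith

end MPf1a024.SD
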