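import Mathlib
import Pool.Agent.Work.MP_f1a024_nt.SD.Win

/-!
Counting and choice of the parameters.
-/

set_option autoImplicit false

namespace MPf1a024.SD

open Finset

open Classical in
/-- counting from windows, explicit -/
theorem counting' (P : ℕ → Prop) {ε : ℝ} (hε : 0 < ε) {N N₁ L : ℕ}
    (hN₁ : (1 + ε) * (N + 2) ≤ N₁)
    (hN : ∀ n : ℕ, N ≤ n → ∀ S : Finset ℕ,
      (∀ m ∈ S, n ≤ m ∧ (m : ℝ) ≤ (1 + ε) * n ∧ P m) → S.card ≤ L) :
    ∀ x : ℕ, 1 ≤ x →
      (((Finset.Icc 1 x).filter P).card : ℝ) ≤ N₁ + L * (Real.log x / Real.log (1 + ε)) := by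
  set f : ℕ → ℕ := fun x => ((Finset.Icc 1 x).filter P).card with hf
  have hL : 0 < Real.log (1 + ε) := Real.log_pos (by linarith)
  have hfx : ∀ x, f x ≤ x := by
    intro x
    refine (Finset.card_filter_le _ _).trans ?_
    simp
  have main : ∀ x : ℕ, 1 ≤ x → (f x : ℝ) ≤ N₁ + L * (Real.log x / Real.log (1 + ε)) := by
    intro x
    induction x using Nat.strong_induction_on with
    | _ x ih =>
      intro hx
      have hlx : 0 ≤ Real.log x := Real.log_nonneg (by exact_mod_cast hx)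
      rcases le_or_gt x N₁ with h | h
      · have : (f x : ℝ) ≤ N₁ := by exact_mod_cast (hfx x).trans h
        have : 0 ≤ L * (Real.log x / Real.log (1 + ε)) := by positivity
        linarith
      · set n : ℕ := ⌈(x : ℝ) / (1 + ε)⌉₊ with hn
        have hnge : (x : ℝ) / (1 + ε) ≤ n := Nat.le_ceil _
        have hnlt : (n : ℝ) < x / (1 + ε) + 1 := Nat.ceil_lt_add_one (by positivity)
        have hxN : (1 + ε) * (N + 2) < x := lt_of_le_of_lt hN₁ (by exact_mod_cast h)
        have hNx : (N + 2 : ℝ) < x / (1 + ε) := by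
          rw [lt_div_iff₀ (by positivity)]; linarith
        have hNn : N + 2 ≤ n := by
          have : ((N + 2 : ℕ) : ℝ) < n := by push_cast; linarith
          exact (by exact_mod_cast this.le)
        have hlt : n - 1 < x := by
          have h3 : (x : ℝ) / (1 + ε) ≤ x := div_le_self (by positivity) (by linarith)
          have : (n : ℝ) < x + 1 := by linarith
          have : n < x + 1 := by exact_mod_cast this
          omega
        have ih' := ih (n - 1) hlt (by omega)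
        have hsplit : f x ≤ f (n - 1) + L := by
          have hsub : (Finset.Icc 1 x).filter P ⊆
              (Finset.Icc 1 (n - 1)).filter P ∪ (Finset.Icc n x).filter P := by
            intro m hm
            simp only [Finset.mem_filter, Finset.mem_Icc, Finset.mem_union] at hm ⊢
            by_cases hmn : m ≤ n - 1
            · left; exact ⟨⟨hm.1.1, hmn⟩, hm.2⟩
            · right; exact ⟨⟨by omega, hm.1.2⟩, hm.2⟩
          have hw : ((Finset.Icc n x).filter P).card ≤ L := by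
            refine hN n (by omega) _ ?_
            intro m hm
            simp only [Finset.mem_filter, Finset.mem_Icc] at hm
            refine ⟨hm.1.1, ?_, hm.2⟩
            have : (m : ℝ) ≤ x := by exact_mod_cast hm.1.2
            rw [div_le_iff₀ (by positivity)] at hnge
            linarith
          calc f x ≤ _ := Finset.card_le_card hsub
            _ ≤ _ := Finset.card_union_le _ _
            _ ≤ f (n - 1) + L := by simp only [hf]; omega
        have hn1 : ((n - 1 : ℕ) : ℝ) ≤ x / (1 + ε) := by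
          rw [Nat.cast_sub (by omega)]; push_cast; linarith
        have hn0 : (0 : ℝ) < ((n - 1 : ℕ) : ℝ) := by
          have : 0 < n - 1 := by omega
          exact_mod_cast this
        have hlog : Real.log ((n - 1 : ℕ) : ℝ) ≤ Real.log x - Real.log (1 + ε) := by
          rw [← Real.log_div (by positivity) (by positivity)]
          exact Real.log_le_log hn0 hn1
        have h5 : Real.log ((n - 1 : ℕ) : ℝ) / Real.log (1 + ε) ≤
            Real.log x / Real.log (1 + ε) - 1 := by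
          rw [div_le_iff₀ hL, sub_mul, div_mul_cancel₀ _ hL.ne']
          linarith
        have h6 : (f x : ℝ) ≤ f (n - 1) + L := by exact_mod_cast hsplit
        have h7 : (L : ℝ) * (Real.log ((n - 1 : ℕ) : ℝ) / Real.log (1 + ε)) ≤
            L * (Real.log x / Real.log (1 + ε) - 1) := by gcongr
        linarith
  exact main

/-- `t(m) = zeta(2m)/zeta(m)^2` is within `θ^m` of a rational number `a/b` with a denominator
`b` at most `B^m` -/
def IsNear (B θ : ℝ) (m : ℕ) : Prop :=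
  ∃ a b : ℤ, 0 < b ∧ (b : ℝ) ≤ B ^ m ∧
    ‖riemannZeta (2 * m) / riemannZeta m ^ 2 - (a : ℂ) / b‖ ≤ θ ^ m

lemma near_of_isNear {B θ : ℝ} {m : ℕ} (hm : 3 ≤ m) (h : IsNear B θ m) : Near B θ m := by
  obtain ⟨a, b, hb, hbB, hab⟩ := h
  refine ⟨a, b, hb, hbB, ?_⟩
  rw [ratio_eq hm] at hab
  have e : ((T (-1) m : ℝ) : ℂ) - (a : ℂ) / b = ((T (-1) m - a / b : ℝ) : ℂ) := by
    push_cast
    ring
  rw [e, Complex.norm_real, Real.norm_eq_abs] at hab
  exact hab

open Classical in
/-- count of the bad integers for one `q` -/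
theorem count_q {η : ℝ} (hη0 : 0 < η) (hη1 : η < 1) {q : ℕ} (hq : q.Prime) (hq4 : 4 ≤ q)
    (hηq : 8 ≤ η * q) (hlog : 4 * Real.log q < η * (q : ℝ) ^ η)
    {B : ℝ} (hB1 : 1 ≤ B) (hBq : B ≤ (q : ℝ) ^ (1 / 2 - η)) :
    ∃ J : ℕ, 16 ≤ J ∧ Real.log J ≤ (q : ℝ) ^ (1 + 2 * η) * η ∧
      ∀ θ : ℝ, 0 < θ → θ ≤ 1 / ((J + 1 : ℕ) : ℝ) → ∀ x : ℕ, 2 ≤ x →
        (((Finset.Icc 1 x).filter (IsNear B θ)).card : ℝ) ≤ (J : ℝ) ^ 12 * Real.log x := by
  obtain ⟨i, hiI, hi⟩ := exists_scale hη0 hη1 hq4 hlog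
  have hq4R : (4 : ℝ) ≤ q := by exact_mod_cast hq4
  have hq0 : (0 : ℝ) < q := by linarith
  have hq1 : (1 : ℝ) ≤ q := by linarith
  obtain ⟨J, hJ⟩ : ∃ J, J = q ^ (i + 2) := ⟨_, rfl⟩
  have hJ16 : 16 ≤ J := by
    rw [hJ]
    calc 16 = 4 ^ 2 := by norm_num
      _ ≤ q ^ 2 := Nat.pow_le_pow_left hq4 2
      _ ≤ q ^ (i + 2) := Nat.pow_le_pow_right (by omega) (by omega)
  have hJR : (16 : ℝ) ≤ J := by exact_mod_cast hJ16
  have hJ0 : (0 : ℝ) < J := by linarith
  have hJ1 : (1 : ℝ) ≤ J := by linarith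
  refine ⟨J, hJ16, ?_, fun θ hθ0 hθ x hx => ?_⟩
  · -- size of `J`
    have hlq : 0 < Real.log q := Real.log_pos (by linarith)
    have h1 : Real.log J = ((i : ℝ) + 2) * Real.log q := by
      rw [hJ]; push_cast; rw [Real.log_pow]; push_cast; ring
    have h2 : ((i : ℝ) + 1) ≤ II η q := by exact_mod_cast hiI
    have h3 : (II η q : ℝ) < (q : ℝ) ^ (1 + η) + 1 := Nat.ceil_lt_add_one (by positivity)
    have h4 : (1 : ℝ) ≤ (q : ℝ) ^ (1 + η) := Real.one_le_rpow hq1 (by linarith)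
    have h5 : (i : ℝ) + 2 ≤ 4 * (q : ℝ) ^ (1 + η) := by linarith
    rw [h1]
    calc ((i : ℝ) + 2) * Real.log q ≤ (4 * (q : ℝ) ^ (1 + η)) * Real.log q := by gcongr
      _ = (q : ℝ) ^ (1 + η) * (4 * Real.log q) := by ring
      _ ≤ (q : ℝ) ^ (1 + η) * (η * (q : ℝ) ^ η) := by gcongr
      _ = ((q : ℝ) ^ (1 + η) * (q : ℝ) ^ η) * η := by ring
      _ = (q : ℝ) ^ (1 + 2 * η) * η := by
          rw [← Real.rpow_add hq0]
          congr 2
          ring
  · have hcnt := counting' (IsNear B θ) (ε := 1 / (J : ℝ) ^ 5) (by positivity)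
      (N := J ^ 10) (N₁ := 3 * J ^ 10) (L := J) (by
        push_cast
        have h1 : 1 / (J : ℝ) ^ 5 ≤ 1 := by
          rw [div_le_one (by positivity)]
          exact one_le_pow₀ hJ1
        have h2 : (4 : ℝ) ≤ (J : ℝ) ^ 10 := by
          calc (4 : ℝ) ≤ J := by linarith
            _ = (J : ℝ) ^ 1 := (pow_one _).symm
            _ ≤ (J : ℝ) ^ 10 := pow_le_pow_right₀ hJ1 (by norm_num)
        calc (1 + 1 / (J : ℝ) ^ 5) * ((J : ℝ) ^ 10 + 2) ≤ (1 + 1) * ((J : ℝ) ^ 10 + 2) := by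
              gcongr
          _ ≤ 3 * (J : ℝ) ^ 10 := by linarith) (by
        intro n hn S hS
        have hn16 : 16 ≤ n := by
          calc 16 ≤ J := hJ16
            _ = J ^ 1 := (pow_one J).symm
            _ ≤ J ^ 10 := Nat.pow_le_pow_right (by omega) (by omega)
            _ ≤ n := hn
        refine (window hη0 hq hq4 hηq hi hB1 hBq hJ hθ0 hθ hn S fun m hm => ?_).le
        obtain ⟨h1, h2, h3⟩ := hS m hm
        refine ⟨h1, ?_, near_of_isNear (by omega) h3⟩
        obtain ⟨d, rfl⟩ := Nat.exists_eq_add_of_le h1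
        have h4 : d ≤ n / J ^ 5 := by
          rw [Nat.le_div_iff_mul_le (by positivity)]
          have h5 : ((n + d : ℕ) : ℝ) ≤ n + n / (J : ℝ) ^ 5 := by
            rw [add_mul, one_mul, one_div_mul_eq_div] at h2
            exact h2
          have h6 : (d : ℝ) ≤ n / (J : ℝ) ^ 5 := by push_cast at h5; linarith
          rw [le_div_iff₀ (by positivity)] at h6
          exact_mod_cast h6
        omega) x (by omega)
    refine hcnt.trans ?_
    have hlx : Real.log 2 ≤ Real.log x := Real.log_le_log (by norm_num) (by exact_mod_cast hx)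
    have hl2 : (0.69 : ℝ) < Real.log 2 := by have := Real.log_two_gt_d9; linarith
    have hlx0 : 0 < Real.log x := by linarith
    have hlog1 : 1 / (2 * (J : ℝ) ^ 5) ≤ Real.log (1 + 1 / (J : ℝ) ^ 5) := by
      obtain ⟨t, ht⟩ : ∃ t : ℝ, t = 1 / (J : ℝ) ^ 5 := ⟨_, rfl⟩
      have ht0 : 0 < t := by rw [ht]; positivity
      have ht1 : t ≤ 1 := by
        rw [ht, div_le_one (by positivity)]
        exact one_le_pow₀ hJ1
      have h1 : 1 / (2 * (J : ℝ) ^ 5) = t / 2 := by rw [ht]; field_simp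
      rw [h1, ← ht]
      have h2 := Real.one_sub_inv_le_log_of_pos (x := 1 + t) (by linarith)
      have h3 : t / 2 ≤ 1 - (1 + t)⁻¹ := by
        have h4 : 1 - (1 + t)⁻¹ = t / (1 + t) := by field_simp; ring
        rw [h4]
        apply div_le_div_of_nonneg_left ht0.le (by linarith) (by linarith)
      exact h3.trans h2
    have hd : Real.log x / Real.log (1 + 1 / (J : ℝ) ^ 5) ≤ 2 * (J : ℝ) ^ 5 * Real.log x := by
      rw [div_le_iff₀ (lt_of_lt_of_le (by positivity) hlog1)]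
      calc Real.log x = 2 * (J : ℝ) ^ 5 * Real.log x * (1 / (2 * (J : ℝ) ^ 5)) := by
            field_simp
        _ ≤ _ := by gcongr
    push_cast
    have h1 : 3 * (J : ℝ) ^ 10 ≤ 5 * (J : ℝ) ^ 10 * Real.log x := by
      have : (0 : ℝ) < (J : ℝ) ^ 10 := by positivity
      nlinarith
    have h2 : (J : ℝ) * (Real.log x / Real.log (1 + 1 / (J : ℝ) ^ 5)) ≤
        2 * (J : ℝ) ^ 6 * Real.log x := by
      calc (J : ℝ) * (Real.log x / Real.log (1 + 1 / (J : ℝ) ^ 5)) ≤
          J * (2 * (J : ℝ) ^ 5 * Real.log x) := by gcongr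
        _ = _ := by ring
    have h3 : 5 * (J : ℝ) ^ 10 + 2 * (J : ℝ) ^ 6 ≤ (J : ℝ) ^ 12 := by
      have h4 : (J : ℝ) ^ 6 ≤ (J : ℝ) ^ 10 := pow_le_pow_right₀ hJ1 (by norm_num)
      have h5 : (7 : ℝ) ≤ (J : ℝ) ^ 2 := by nlinarith
      have h6 : (J : ℝ) ^ 12 = (J : ℝ) ^ 2 * (J : ℝ) ^ 10 := by ring
      have h7 : (0 : ℝ) < (J : ℝ) ^ 10 := by positivity
      rw [h6]
      nlinarith
    calc 3 * (J : ℝ) ^ 10 + J * (Real.log x / Real.log (1 + 1 / (J : ℝ) ^ 5))
        ≤ 5 * (J : ℝ) ^ 10 * Real.log x + 2 * (J : ℝ) ^ 6 * Real.log x := add_le_add h1 h2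
      _ = (5 * (J : ℝ) ^ 10 + 2 * (J : ℝ) ^ 6) * Real.log x := by ring
      _ ≤ (J : ℝ) ^ 12 * Real.log x := by gcongr

end MPf1a024.SD
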