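import Mathlib
import Pool.Agent.Work.MP_f1a024_nt.SD.Fin

/-!
The final statements: uniform in the denominator, and superexponential denominators for almost
all `m`.
-/

set_option autoImplicit false

namespace MPf1a024.SD

open Finset Filter

lemma IsNear.mono {B B' θ θ' : ℝ} {m : ℕ} (hB0 : 0 ≤ B) (hB : B ≤ B') (hθ0 : 0 ≤ θ)
    (hθ : θ ≤ θ') (h : IsNear B θ m) : IsNear B' θ' m := by
  obtain ⟨a, b, hb, hbB, hab⟩ := h
  exact ⟨a, b, hb, hbB.trans (pow_le_pow_left₀ hB0 hB m), hab.trans (pow_le_pow_left₀ hθ0 hθ m)⟩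

open Classical in
/-- large `B` -/
theorem uniform_large {ε : ℝ} (hε : 0 < ε) : ∃ B₀ : ℝ, 1 ≤ B₀ ∧ ∀ B : ℝ, B₀ ≤ B →
    ∀ x : ℕ, 2 ≤ x →
      (((Finset.Icc 1 x).filter (IsNear B (Real.exp (-(B ^ (2 + ε)))))).card : ℝ) ≤
        Real.exp (B ^ (2 + ε)) * Real.log x := by
  obtain ⟨δ, hδ⟩ : ∃ δ : ℝ, δ = min ε 1 / 20 := ⟨_, rfl⟩
  have hδ0 : 0 < δ := by rw [hδ]; positivity
  have hδ1 : δ ≤ 1 / 20 := by
    rw [hδ]; linarith [min_le_right ε 1]
  have hδε : 20 * δ ≤ ε := by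
    rw [hδ]; linarith [min_le_left ε 1]
  -- large `q`
  have hev1 : ∀ᶠ q : ℕ in atTop, 4 * Real.log q < δ * (q : ℝ) ^ δ := by
    have h1 := (isLittleO_log_rpow_atTop hδ0).bound (show (0 : ℝ) < δ / 5 by positivity)
    have h2 := tendsto_natCast_atTop_atTop (R := ℝ) |>.eventually h1
    filter_upwards [h2, eventually_ge_atTop 2] with q hq hq2
    have hq1 : (1 : ℝ) < q := by exact_mod_cast hq2
    have hq0 : (0 : ℝ) < q := by linarith
    rw [Real.norm_eq_abs, Real.norm_eq_abs, abs_of_pos (Real.log_pos hq1),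
      abs_of_pos (Real.rpow_pos_of_pos hq0 _)] at hq
    have h3 : 0 < (q : ℝ) ^ δ := Real.rpow_pos_of_pos hq0 _
    nlinarith [mul_pos hδ0 h3]
  have hev2 : ∀ᶠ q : ℕ in atTop, 8 ≤ δ * (q : ℝ) := by
    have h1 : Tendsto (fun q : ℕ => δ * (q : ℝ)) atTop atTop :=
      tendsto_natCast_atTop_atTop.const_mul_atTop hδ0
    exact h1.eventually_ge_atTop 8
  obtain ⟨q₀, hq₀⟩ := eventually_atTop.mp (hev1.and (hev2.and (eventually_ge_atTop 4)))
  obtain ⟨B₁, hB₁⟩ : ∃ B₁ : ℝ, B₁ = (8 : ℝ) ^ (1 / (7 * δ)) := ⟨_, rfl⟩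
  refine ⟨max 1 (max q₀ B₁), le_max_left _ _, fun B hB x hx => ?_⟩
  have hB1 : 1 ≤ B := (le_max_left _ _).trans hB
  have hBq₀ : (q₀ : ℝ) ≤ B := (le_max_left _ _).trans ((le_max_right _ _).trans hB)
  have hBB₁ : B₁ ≤ B := (le_max_right _ _).trans ((le_max_right _ _).trans hB)
  have hB0 : 0 < B := by linarith
  -- choice of `q`
  obtain ⟨Q, hQ⟩ : ∃ Q, Q = ⌈B ^ (2 + 8 * δ)⌉₊ := ⟨_, rfl⟩
  have hpow1 : 1 ≤ B ^ (2 + 8 * δ) := Real.one_le_rpow hB1 (by linarith)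
  have hQge : B ^ (2 + 8 * δ) ≤ Q := by rw [hQ]; exact Nat.le_ceil _
  have hQlt : (Q : ℝ) < B ^ (2 + 8 * δ) + 1 := by
    rw [hQ]; exact Nat.ceil_lt_add_one (by positivity)
  have hQ0 : Q ≠ 0 := by
    rintro rfl
    simp only [Nat.cast_zero] at hQge
    linarith
  obtain ⟨q, hq, hQq, hq2Q⟩ := Nat.exists_prime_lt_and_le_two_mul Q hQ0
  have hqQ : (Q : ℝ) < q := by exact_mod_cast hQq
  have hqQ2 : (q : ℝ) ≤ 2 * Q := by exact_mod_cast hq2Q
  have hBq' : B ^ (2 + 8 * δ) ≤ q := by linarith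
  have hBleq : B ≤ q := by
    calc B = B ^ (1 : ℝ) := (Real.rpow_one B).symm
      _ ≤ B ^ (2 + 8 * δ) := Real.rpow_le_rpow_of_exponent_le hB1 (by linarith)
      _ ≤ q := hBq'
  have hq₀q : q₀ ≤ q := by exact_mod_cast hBq₀.trans hBleq
  obtain ⟨hlog, h8, h4⟩ := hq₀ q hq₀q
  have hq0 : (0 : ℝ) < q := by exact_mod_cast hq.pos
  have hBq : B ≤ (q : ℝ) ^ (1 / 2 - δ) := by
    have h1 : (B ^ (2 + 8 * δ)) ^ (1 / 2 - δ) ≤ (q : ℝ) ^ (1 / 2 - δ) :=
      Real.rpow_le_rpow (by positivity) hBq' (by linarith)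
    rw [← Real.rpow_mul hB0.le] at h1
    refine le_trans ?_ h1
    calc B = B ^ (1 : ℝ) := (Real.rpow_one B).symm
      _ ≤ B ^ ((2 + 8 * δ) * (1 / 2 - δ)) := by
          apply Real.rpow_le_rpow_of_exponent_le hB1
          nlinarith
  obtain ⟨J, hJ16, hJlog, hJ⟩ := count_q hδ0 (by linarith) hq h4 h8 hlog hB1 hBq
  have hJR : (16 : ℝ) ≤ J := by exact_mod_cast hJ16
  have hJ0 : (0 : ℝ) < J := by linarith
  -- size of `J`
  have hq4 : (q : ℝ) ≤ 4 * B ^ (2 + 8 * δ) := by linarith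
  have h8B : (8 : ℝ) ≤ B ^ (7 * δ) := by
    have h1 : B₁ ^ (7 * δ) ≤ B ^ (7 * δ) := by
      apply Real.rpow_le_rpow _ hBB₁ (by positivity)
      rw [hB₁]; positivity
    rw [hB₁, ← Real.rpow_mul (by norm_num)] at h1
    have h2 : 1 / (7 * δ) * (7 * δ) = 1 := by field_simp
    rw [h2, Real.rpow_one] at h1
    exact h1
  have hbig : (q : ℝ) ^ (1 + 2 * δ) ≤ B ^ (2 + ε) := by
    calc (q : ℝ) ^ (1 + 2 * δ) ≤ (4 * B ^ (2 + 8 * δ)) ^ (1 + 2 * δ) :=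
          Real.rpow_le_rpow hq0.le hq4 (by linarith)
      _ = (4 : ℝ) ^ (1 + 2 * δ) * B ^ ((2 + 8 * δ) * (1 + 2 * δ)) := by
          rw [Real.mul_rpow (by norm_num) (by positivity), ← Real.rpow_mul hB0.le]
      _ ≤ 8 * B ^ ((2 + 8 * δ) * (1 + 2 * δ)) := by
          have h1 : (4 : ℝ) ^ (1 + 2 * δ) ≤ (4 : ℝ) ^ (3 / 2 : ℝ) :=
            Real.rpow_le_rpow_of_exponent_le (by norm_num) (by linarith)
          have h2 : (4 : ℝ) ^ (3 / 2 : ℝ) = 8 := by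
            rw [show (4 : ℝ) = 2 ^ (2 : ℝ) by norm_num, ← Real.rpow_mul (by norm_num)]
            norm_num
          rw [h2] at h1
          gcongr
      _ ≤ B ^ (7 * δ) * B ^ ((2 + 8 * δ) * (1 + 2 * δ)) := by gcongr
      _ = B ^ (7 * δ + (2 + 8 * δ) * (1 + 2 * δ)) := by rw [← Real.rpow_add hB0]
      _ ≤ B ^ (2 + ε) := by
          apply Real.rpow_le_rpow_of_exponent_le hB1
          nlinarith
  have hJlog' : 12 * Real.log J ≤ B ^ (2 + ε) := by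
    have h1 : (0 : ℝ) < (q : ℝ) ^ (1 + 2 * δ) := Real.rpow_pos_of_pos hq0 _
    have h2 : (q : ℝ) ^ (1 + 2 * δ) * δ ≤ (q : ℝ) ^ (1 + 2 * δ) * (1 / 20) := by gcongr
    linarith
  have hJlog0 : 0 < Real.log J := Real.log_pos (by linarith)
  have hJ12 : (J : ℝ) ^ 12 ≤ Real.exp (B ^ (2 + ε)) := by
    calc (J : ℝ) ^ 12 = Real.exp (12 * Real.log J) := by
          rw [show (12 : ℝ) = ((12 : ℕ) : ℝ) by norm_num, Real.exp_nat_mul, Real.exp_log hJ0]
      _ ≤ _ := Real.exp_le_exp.mpr hJlog'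
  have hθ : Real.exp (-(B ^ (2 + ε))) ≤ 1 / ((J + 1 : ℕ) : ℝ) := by
    rw [Real.exp_neg, ← one_div]
    apply one_div_le_one_div_of_le (by positivity)
    refine le_trans ?_ hJ12
    push_cast
    calc (J : ℝ) + 1 ≤ (J : ℝ) ^ 2 := by nlinarith
      _ ≤ (J : ℝ) ^ 12 := pow_le_pow_right₀ (by linarith) (by norm_num)
  refine (hJ _ (Real.exp_pos _) hθ x hx).trans ?_
  have hlx : 0 ≤ Real.log x := Real.log_nonneg (by exact_mod_cast (by omega : 1 ≤ x))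
  gcongr

open Classical in
/-- uniform in `B ≥ 1` -/
theorem uniform {ε : ℝ} (hε : 0 < ε) : ∃ C : ℝ, ∀ B : ℝ, 1 ≤ B → ∀ x : ℕ, 2 ≤ x →
      (((Finset.Icc 1 x).filter (IsNear B (Real.exp (-(C * B ^ (2 + ε)))))).card : ℝ) ≤
        Real.exp (C * B ^ (2 + ε)) * Real.log x := by
  obtain ⟨B₀, hB₀, h⟩ := uniform_large hε
  obtain ⟨C, hC⟩ : ∃ C, C = B₀ ^ (2 + ε) := ⟨_, rfl⟩
  have hC1 : 1 ≤ C := by rw [hC]; exact Real.one_le_rpow hB₀ (by linarith)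
  refine ⟨C, fun B hB x hx => ?_⟩
  have hlx : 0 ≤ Real.log x := Real.log_nonneg (by exact_mod_cast (by omega : 1 ≤ x))
  have hB0 : 0 ≤ B := by linarith
  have hBp : 1 ≤ B ^ (2 + ε) := Real.one_le_rpow hB (by linarith)
  obtain ⟨B', hB'⟩ : ∃ B', B' = max B B₀ := ⟨_, rfl⟩
  have h1 : B' ^ (2 + ε) ≤ C * B ^ (2 + ε) := by
    rcases le_total B B₀ with hle | hle
    · rw [hB', max_eq_right hle, ← hC]
      exact le_mul_of_one_le_right (by linarith) hBp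
    · rw [hB', max_eq_left hle]
      exact le_mul_of_one_le_left (by linarith) hC1
  have h2 := h B' (by rw [hB']; exact le_max_right _ _) x hx
  refine le_trans ?_ (h2.trans ?_)
  · have : (Finset.Icc 1 x).filter (IsNear B (Real.exp (-(C * B ^ (2 + ε))))) ⊆
        (Finset.Icc 1 x).filter (IsNear B' (Real.exp (-(B' ^ (2 + ε))))) := by
      intro m hm
      rw [Finset.mem_filter] at hm ⊢
      refine ⟨hm.1, hm.2.mono hB0 (by rw [hB']; exact le_max_left _ _) (Real.exp_pos _).le ?_⟩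
      exact Real.exp_le_exp.mpr (by linarith)
    exact_mod_cast Finset.card_le_card this
  · gcongr

open Classical in
/-- superexponential denominators for almost all `m` -/
theorem almost_all {c θ : ℝ} (hc : 0 < c) (hcθ : 2 * c < θ) : ∃ x₀ : ℕ, ∀ x : ℕ, x₀ ≤ x →
      (((Finset.Icc 1 x).filter (IsNear (Real.log x ^ c)
        (Real.exp (-(Real.log x ^ θ))))).card : ℝ) ≤ Real.exp (Real.log x ^ θ) := by
  have hθ0 : 0 < θ := by linarith
  obtain ⟨ε, hε⟩ : ∃ ε : ℝ, ε = (θ / c - 2) / 2 := ⟨_, rfl⟩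
  have hε0 : 0 < ε := by
    rw [hε]
    have : 2 < θ / c := by rw [lt_div_iff₀ hc]; linarith
    linarith
  obtain ⟨θ', hθ'⟩ : ∃ θ' : ℝ, θ' = c * (2 + ε) := ⟨_, rfl⟩
  have hθ'e : θ' = c + θ / 2 := by
    rw [hθ', hε]; field_simp; ring
  have hθ'0 : 0 < θ' := by rw [hθ'e]; positivity
  have hθ'θ : θ' < θ := by rw [hθ'e]; linarith
  obtain ⟨B₀, hB₀, h⟩ := uniform_large hε0
  -- eventual inequalities in `L = log x`
  have hL : Tendsto (fun x : ℕ => Real.log (x : ℝ)) atTop atTop :=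
    Real.tendsto_log_atTop.comp tendsto_natCast_atTop_atTop
  have e1 : ∀ᶠ L : ℝ in atTop, B₀ ≤ L ^ c := (tendsto_rpow_atTop hc).eventually_ge_atTop _
  have e2 : ∀ᶠ L : ℝ in atTop, L ^ θ' ≤ L ^ θ / 2 := by
    have h1 : Tendsto (fun L : ℝ => L ^ (θ - θ')) atTop atTop :=
      tendsto_rpow_atTop (by linarith)
    filter_upwards [h1.eventually_ge_atTop 2, eventually_gt_atTop 0] with L hL2 hL0
    have h2 : L ^ θ = L ^ θ' * L ^ (θ - θ') := by
      rw [← Real.rpow_add hL0]; congr 1; ring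
    have h3 : 0 < L ^ θ' := Real.rpow_pos_of_pos hL0 _
    rw [h2]
    nlinarith
  have e3 : ∀ᶠ L : ℝ in atTop, Real.log L ≤ L ^ θ / 2 := by
    have h1 := (isLittleO_log_rpow_atTop hθ0).bound (show (0 : ℝ) < 1 / 2 by norm_num)
    filter_upwards [h1, eventually_gt_atTop 1] with L hL1 hL2
    have hL0 : 0 < L := by linarith
    rw [Real.norm_eq_abs, Real.norm_eq_abs, abs_of_pos (Real.log_pos hL2),
      abs_of_pos (Real.rpow_pos_of_pos hL0 _)] at hL1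
    linarith
  have e4 : ∀ᶠ L : ℝ in atTop, (1 : ℝ) ≤ L := eventually_ge_atTop 1
  obtain ⟨x₀, hx₀⟩ := eventually_atTop.mp
    ((hL.eventually (e1.and (e2.and (e3.and e4)))).and (eventually_ge_atTop 2))
  refine ⟨x₀, fun x hx => ?_⟩
  obtain ⟨⟨h1, h2, h3, h4⟩, h5⟩ := hx₀ x hx
  obtain ⟨L, hLdef⟩ : ∃ L, L = Real.log (x : ℝ) := ⟨_, rfl⟩
  rw [← hLdef] at h1 h2 h3 h4 ⊢
  have hL0 : 0 < L := by linarith
  have h6 := h (L ^ c) h1 x h5
  have h7 : (L ^ c) ^ (2 + ε) = L ^ θ' := by rw [← Real.rpow_mul hL0.le, hθ']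
  rw [h7, ← hLdef] at h6
  have h8 : 0 < L ^ θ := Real.rpow_pos_of_pos hL0 _
  refine le_trans ?_ (h6.trans ?_)
  · have : (Finset.Icc 1 x).filter (IsNear (L ^ c) (Real.exp (-(L ^ θ)))) ⊆
        (Finset.Icc 1 x).filter (IsNear (L ^ c) (Real.exp (-(L ^ θ')))) := by
      intro m hm
      rw [Finset.mem_filter] at hm ⊢
      refine ⟨hm.1, hm.2.mono (by positivity) le_rfl (Real.exp_pos _).le ?_⟩
      exact Real.exp_le_exp.mpr (by linarith)
    exact_mod_cast Finset.card_le_card this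
  · calc Real.exp (L ^ θ') * L = Real.exp (L ^ θ') * Real.exp (Real.log L) := by
          rw [Real.exp_log hL0]
      _ = Real.exp (L ^ θ' + Real.log L) := by rw [Real.exp_add]
      _ ≤ Real.exp (L ^ θ) := Real.exp_le_exp.mpr (by linarith)

end MPf1a024.SD
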